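import Pool.Agent.H20.Neg.Realize

/-!
# Families of sets and negative 4-circles
-/

set_option autoImplicit false

namespace Pool.Agent.H61.NC

open Finset

/-- `m (s - m)` -/
def fq (s m : ℤ) : ℤ := m * (s - m)

/-- twice the number of negative 4-circles of the signature whose rows are the sets `A a` of
negative columns, in `s` columns -/
def kk {ι γ : Type*} [Fintype ι] [DecidableEq γ] (s : ℤ) (A : ι → Finset γ) : ℤ :=
  ∑ a, ∑ b, fq s ((symmDiff (A a) (A b)).card : ℤ)

/-- block sum of two families -/
def bsum {ι ι' γ γ' : Type*} (A : ι → Finset γ) (B : ι' → Finset γ') :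
    ι ⊕ ι' → Finset (γ ⊕ γ') :=
  Sum.elim (fun a => (A a).map Function.Embedding.inl) (fun b => (B b).map Function.Embedding.inr)

theorem map_sd {γ δ : Type*} [DecidableEq γ] [DecidableEq δ] (f : γ ↪ δ) (A B : Finset γ) :
    symmDiff (A.map f) (B.map f) = (symmDiff A B).map f := by
  rw [Finset.map_eq_image, Finset.map_eq_image, Finset.map_eq_image,
    Finset.image_symmDiff _ _ f.injective]

theorem card_bsum_inl {ι ι' γ γ' : Type*} (A : ι → Finset γ) (B : ι' → Finset γ') (a : ι) :
    (bsum A B (Sum.inl a)).card = (A a).card := by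
  simp [bsum]

theorem card_bsum_inr {ι ι' γ γ' : Type*} (A : ι → Finset γ) (B : ι' → Finset γ') (b : ι') :
    (bsum A B (Sum.inr b)).card = (B b).card := by
  simp [bsum]

theorem kk_bsum {ι ι' γ γ' : Type*} [Fintype ι] [Fintype ι'] [DecidableEq γ] [DecidableEq γ']
    (s : ℤ) (A : ι → Finset γ) (B : ι' → Finset γ') :
    kk s (bsum A B) = kk s A + kk s B + 2 * ∑ a, ∑ b, fq s ((A a).card + (B b).card) := by
  have h1 : ∀ a a' : ι, (symmDiff (bsum A B (Sum.inl a)) (bsum A B (Sum.inl a'))).card =
      (symmDiff (A a) (A a')).card := by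
    intro a a'
    simp only [bsum, Sum.elim_inl]
    rw [map_sd, Finset.card_map]
  have h2 : ∀ b b' : ι', (symmDiff (bsum A B (Sum.inr b)) (bsum A B (Sum.inr b'))).card =
      (symmDiff (B b) (B b')).card := by
    intro b b'
    simp only [bsum, Sum.elim_inr]
    rw [map_sd, Finset.card_map]
  have hd : ∀ (a : ι) (b : ι'), Disjoint ((A a).map (Function.Embedding.inl : γ ↪ γ ⊕ γ'))
      ((B b).map (Function.Embedding.inr : γ' ↪ γ ⊕ γ')) := by
    intro a b
    rw [Finset.disjoint_left]
    intro x hx hy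
    rw [Finset.mem_map] at hx hy
    obtain ⟨u, -, hu⟩ := hx
    obtain ⟨v, -, hv⟩ := hy
    rw [← hv] at hu
    simp at hu
  have h3 : ∀ (a : ι) (b : ι'), (symmDiff (bsum A B (Sum.inl a)) (bsum A B (Sum.inr b))).card =
      (A a).card + (B b).card := by
    intro a b
    simp only [bsum, Sum.elim_inl, Sum.elim_inr]
    rw [(hd a b).symmDiff_eq_sup, Finset.sup_eq_union, Finset.card_union_of_disjoint (hd a b),
      Finset.card_map, Finset.card_map]
  have h4 : ∀ (b : ι') (a : ι), (symmDiff (bsum A B (Sum.inr b)) (bsum A B (Sum.inl a))).card =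
      (A a).card + (B b).card := by
    intro b a
    rw [symmDiff_comm, h3]
  unfold kk
  simp only [Fintype.sum_sum_type, h1, h2, h3, h4]
  rw [Finset.sum_add_distrib, Finset.sum_add_distrib]
  rw [Finset.sum_comm (f := fun (b : ι') (a : ι) => fq s (((A a).card + (B b).card : ℕ) : ℤ))]
  push_cast
  ring

theorem swap_left {ι ι' γ γ' : Type*} [Fintype ι] [Fintype ι'] [DecidableEq γ] [DecidableEq γ']
    (s : ℤ) (A A' : ι → Finset γ) (B : ι' → Finset γ') (h : ∀ a, (A a).card = (A' a).card) :
    kk s (bsum A B) - kk s (bsum A' B) = kk s A - kk s A' := by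
  rw [kk_bsum, kk_bsum]
  simp only [h]
  ring

theorem swap_right {ι ι' γ γ' : Type*} [Fintype ι] [Fintype ι'] [DecidableEq γ] [DecidableEq γ']
    (s : ℤ) (A : ι → Finset γ) (B B' : ι' → Finset γ') (h : ∀ b, (B b).card = (B' b).card) :
    kk s (bsum A B) - kk s (bsum A B') = kk s B - kk s B' := by
  rw [kk_bsum, kk_bsum]
  simp only [h]
  ring

theorem fq_nonneg {s m : ℤ} (h0 : 0 ≤ m) (h1 : m ≤ s) : 0 ≤ fq s m :=
  mul_nonneg h0 (by linarith)

theorem kk_bsum_ge {ι ι' γ γ' : Type*} [Fintype ι] [Fintype ι'] [DecidableEq γ] [DecidableEq γ']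
    [Fintype γ] [Fintype γ']
    (s : ℤ) (A : ι → Finset γ) (B : ι' → Finset γ')
    (hs : ((Fintype.card γ + Fintype.card γ' : ℕ) : ℤ) ≤ s) :
    kk s B ≤ kk s (bsum A B) := by
  rw [kk_bsum]
  have h1 : 0 ≤ kk s A := by
    apply Finset.sum_nonneg
    intro a _
    apply Finset.sum_nonneg
    intro b _
    apply fq_nonneg (by positivity)
    have := Finset.card_le_univ (symmDiff (A a) (A b))
    push_cast at hs
    have h2 : ((symmDiff (A a) (A b)).card : ℤ) ≤ Fintype.card γ := by exact_mod_cast this
    have h3 : (0 : ℤ) ≤ Fintype.card γ' := by positivity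
    linarith
  have h2 : 0 ≤ ∑ a, ∑ b, fq s ((A a).card + (B b).card) := by
    apply Finset.sum_nonneg
    intro a _
    apply Finset.sum_nonneg
    intro b _
    apply fq_nonneg (by positivity)
    have h3 := Finset.card_le_univ (A a)
    have h4 := Finset.card_le_univ (B b)
    push_cast at hs
    have h5 : ((A a).card : ℤ) ≤ Fintype.card γ := by exact_mod_cast h3
    have h6 : ((B b).card : ℤ) ≤ Fintype.card γ' := by exact_mod_cast h4
    linarith
  linarith

/-- The number of negative 4-circles of a signature through its sets of negative columns. -/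
theorem two_mul_negCount_eq {r s : ℕ} (σ : Fin r → Fin s → ℤˣ) :
    (2 * (Pool.Agent.H20.Neg.negCount 4 σ : ℤ)) =
      kk (s : ℤ) (fun a : Fin r => (univ : Finset (Fin s)).filter (fun j => σ a j = -1)) := by
  have h := Pool.Agent.H20.Neg.two_mul_negCount σ
  have h' : (2 * (Pool.Agent.H20.Neg.negCount 4 σ : ℤ)) =
      ∑ a : Fin r, ∑ b : Fin r, (Pool.Agent.H20.Neg.cost σ a b : ℤ) := by
    exact_mod_cast h
  rw [h', kk]
  apply Finset.sum_congr rfl
  intro a _
  apply Finset.sum_congr rfl
  intro b _
  have hd : Pool.Agent.H20.Neg.diffSet σ a b =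
      symmDiff ((univ : Finset (Fin s)).filter (fun j => σ a j = -1))
        ((univ : Finset (Fin s)).filter (fun j => σ b j = -1)) := by
    ext j
    simp only [Pool.Agent.H20.Neg.diffSet, Finset.mem_filter, Finset.mem_univ, true_and,
      Finset.mem_symmDiff]
    rcases Int.units_eq_one_or (σ a j) with h1 | h1 <;>
      rcases Int.units_eq_one_or (σ b j) with h2 | h2 <;> rw [h1, h2] <;> decide
  unfold Pool.Agent.H20.Neg.cost fq
  rw [hd]
  set m := (symmDiff ((univ : Finset (Fin s)).filter (fun j => σ a j = -1))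
        ((univ : Finset (Fin s)).filter (fun j => σ b j = -1))).card with hm
  have hle : m ≤ s := by
    rw [hm]
    have := Finset.card_le_univ (symmDiff ((univ : Finset (Fin s)).filter (fun j => σ a j = -1))
        ((univ : Finset (Fin s)).filter (fun j => σ b j = -1)))
    simpa using this
  push_cast [Nat.cast_sub hle]
  ring

theorem kk_reindex {ι ι' γ γ' : Type*} [Fintype ι] [Fintype ι'] [DecidableEq γ] [DecidableEq γ']
    (s : ℤ) (A : ι → Finset γ) (e : ι' ≃ ι) (g : γ ≃ γ') :
    kk s (fun a => (A (e a)).map g.toEmbedding) = kk s A := by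
  unfold kk
  have h : ∀ a b : ι', (symmDiff ((A (e a)).map g.toEmbedding) ((A (e b)).map g.toEmbedding)).card =
      (symmDiff (A (e a)) (A (e b))).card := by
    intro a b
    rw [map_sd, Finset.card_map]
  simp only [h]
  rw [← Equiv.sum_comp e (fun a => ∑ b, fq s ((symmDiff (A a) (A b)).card : ℤ))]
  apply Finset.sum_congr rfl
  intro a _
  exact Equiv.sum_comp e (fun b => fq s ((symmDiff (A (e a)) (A b)).card : ℤ))

/-- Every family of sets gives an element of `S_4`. -/
theorem realize {ι γ : Type*} [Fintype ι] [Fintype γ] [DecidableEq γ] (A : ι → Finset γ)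
    {r s : ℕ} (hr : Fintype.card ι = r) (hs : Fintype.card γ = s) :
    ∃ c ∈ Pool.Agent.H20.Neg.S 4 r s, (2 * (c : ℤ)) = kk (s : ℤ) A := by
  classical
  have e : Fin r ≃ ι := (Fintype.equivFinOfCardEq hr).symm
  have g : γ ≃ Fin s := Fintype.equivFinOfCardEq hs
  let σ : Fin r → Fin s → ℤˣ := fun a j => if j ∈ (A (e a)).map g.toEmbedding then -1 else 1
  refine ⟨Pool.Agent.H20.Neg.negCount 4 σ, ⟨σ, rfl⟩, ?_⟩
  rw [two_mul_negCount_eq, ← kk_reindex (s : ℤ) A e g]
  congr 1
  funext a
  ext j
  simp only [Finset.mem_filter, Finset.mem_univ, true_and, σ]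
  by_cases h : j ∈ (A (e a)).map g.toEmbedding
  · simp only [h, if_true]
  · simp only [h, if_false, iff_false]
    decide

/-- Changing one row by at most one element changes `kk` by at most `2 r s`. -/
theorem flip_bound {ι γ : Type*} [Fintype ι] [Fintype γ] [DecidableEq γ]
    (A A' : ι → Finset γ) (a0 : ι) (h : ∀ a, a ≠ a0 → A a = A' a)
    (h1 : (symmDiff (A a0) (A' a0)).card ≤ 1) (s : ℤ) (hs : (Fintype.card γ : ℤ) ≤ s) :
    |kk s A - kk s A'| ≤ 2 * Fintype.card ι * s := by
  classical
  have hs0 : 0 ≤ s := le_trans (by positivity) hs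
  have htri : ∀ X Y Z : Finset γ, (symmDiff X Z).card ≤ (symmDiff X Y).card + (symmDiff Y Z).card := by
    intro X Y Z
    calc (symmDiff X Z).card ≤ (symmDiff X Y ∪ symmDiff Y Z).card :=
          Finset.card_le_card (symmDiff_triangle X Y Z)
      _ ≤ _ := Finset.card_union_le _ _
  have hf : ∀ m m' : ℕ, m ≤ m' + 1 → m' ≤ m + 1 → (m : ℤ) ≤ s → (m' : ℤ) ≤ s →
      |fq s m - fq s m'| ≤ s := by
    intro m m' h1 h2 h3 h4
    have hc : m = m' ∨ m = m' + 1 ∨ m' = m + 1 := by omega
    rcases hc with hc | hc | hc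
    · rw [hc]; simp [hs0]
    · have e : fq s m - fq s m' = s - 2 * m' - 1 := by
        rw [hc]; unfold fq; push_cast; ring
      rw [e, abs_le]
      have h5 : (m : ℤ) = m' + 1 := by exact_mod_cast hc
      constructor <;> linarith
    · have e : fq s m - fq s m' = -(s - 2 * m - 1) := by
        rw [hc]; unfold fq; push_cast; ring
      rw [e, abs_neg, abs_le]
      have h5 : (m' : ℤ) = m + 1 := by exact_mod_cast hc
      constructor <;> linarith
  have hcard : ∀ X : Finset γ, ((X.card : ℕ) : ℤ) ≤ s := by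
    intro X
    have := Finset.card_le_univ X
    have h2 : (X.card : ℤ) ≤ Fintype.card γ := by exact_mod_cast this
    linarith
  have key : ∀ a b : ι, |fq s ((symmDiff (A a) (A b)).card : ℤ) -
      fq s ((symmDiff (A' a) (A' b)).card : ℤ)| ≤ (if a = a0 then s else 0) + (if b = a0 then s else 0) := by
    intro a b
    by_cases ha : a = a0
    · by_cases hb : b = a0
      · rw [ha, hb]
        simp only [symmDiff_self, Finset.bot_eq_empty, Finset.card_empty, sub_self, abs_zero, if_true]
        linarith
      · rw [ha, h b hb]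
        simp only [hb, if_true, if_false, add_zero]
        apply hf _ _ _ _ (hcard _) (hcard _)
        · have := htri (A a0) (A' a0) (A' b)
          omega
        · have := htri (A' a0) (A a0) (A' b)
          rw [symmDiff_comm (A' a0) (A a0)] at this
          omega
    · by_cases hb : b = a0
      · rw [hb, h a ha]
        simp only [ha, if_true, if_false, zero_add]
        apply hf _ _ _ _ (hcard _) (hcard _)
        · have := htri (A' a) (A' a0) (A a0)
          rw [symmDiff_comm (A' a0) (A a0)] at this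
          omega
        · have := htri (A' a) (A a0) (A' a0)
          omega
      · rw [h a ha, h b hb]
        simp [ha, hb]
  have e1 : kk s A - kk s A' = ∑ a, ∑ b, (fq s ((symmDiff (A a) (A b)).card : ℤ) -
      fq s ((symmDiff (A' a) (A' b)).card : ℤ)) := by
    unfold kk
    rw [← Finset.sum_sub_distrib]
    apply Finset.sum_congr rfl
    intro a _
    rw [← Finset.sum_sub_distrib]
  rw [e1]
  calc |∑ a, ∑ b, (fq s ((symmDiff (A a) (A b)).card : ℤ) -
        fq s ((symmDiff (A' a) (A' b)).card : ℤ))|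
      ≤ ∑ a, |∑ b, (fq s ((symmDiff (A a) (A b)).card : ℤ) -
        fq s ((symmDiff (A' a) (A' b)).card : ℤ))| := Finset.abs_sum_le_sum_abs _ _
    _ ≤ ∑ a, ∑ b, ((if a = a0 then s else 0) + (if b = a0 then s else 0)) := by
        apply Finset.sum_le_sum
        intro a _
        refine le_trans (Finset.abs_sum_le_sum_abs _ _) ?_
        exact Finset.sum_le_sum (fun b _ => key a b)
    _ = 2 * Fintype.card ι * s := by
        simp only [Finset.sum_add_distrib, Finset.sum_const, Finset.sum_ite_eq', Finset.mem_univ,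
          if_true, Finset.card_univ, nsmul_eq_mul]
        rw [← Finset.mul_sum]
        simp only [Finset.sum_ite_eq', Finset.mem_univ, if_true]
        ring

end Pool.Agent.H61.NC
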