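import Pool.Agent.H61.NC.Mod

/-!
# Local maxima: families in which the rows of `I` are almost orthogonal to all rows
-/

set_option autoImplicit false

namespace Pool.Agent.H61.NC

open Finset

private theorem kk_update {ι γ : Type*} [Fintype ι] [DecidableEq ι] [DecidableEq γ] (s : ℤ)
    (B : ι → Finset γ) (a : ι) (X : Finset γ) :
    kk s (Function.update B a X) - kk s B =
      2 * ∑ b ∈ univ.erase a, (fq s ((symmDiff X (B b)).card : ℤ) -
        fq s ((symmDiff (B a) (B b)).card : ℤ)) := by
  set d : ι → ℤ := fun b => fq s ((symmDiff X (B b)).card : ℤ) -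
        fq s ((symmDiff (B a) (B b)).card : ℤ) with hd
  have h1 : ∀ c b : ι, fq s ((symmDiff (Function.update B a X c) (Function.update B a X b)).card : ℤ)
      - fq s ((symmDiff (B c) (B b)).card : ℤ) =
      (if c = a then (if b = a then 0 else d b) else 0) +
        (if b = a then (if c = a then 0 else d c) else 0) := by
    intro c b
    by_cases hc : c = a
    · by_cases hb : b = a
      · rw [hc, hb]
        simp
      · rw [hc]
        simp [hb, hd]
    · by_cases hb : b = a
      · rw [hb]
        simp [hc, hd, symmDiff_comm]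
      · simp [hc, hb]
  have e1 : kk s (Function.update B a X) - kk s B = ∑ c, ∑ b,
      ((if c = a then (if b = a then 0 else d b) else 0) +
        (if b = a then (if c = a then 0 else d c) else 0)) := by
    unfold kk
    rw [← Finset.sum_sub_distrib]
    apply Finset.sum_congr rfl
    intro c _
    rw [← Finset.sum_sub_distrib]
    exact Finset.sum_congr rfl (fun b _ => h1 c b)
  rw [e1]
  have e2 : ∑ b, (if b = a then 0 else d b) = ∑ b ∈ univ.erase a, d b := by
    rw [← Finset.sum_erase (s := univ) (a := a) (f := fun b => if b = a then 0 else d b) (by simp)]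
    apply Finset.sum_congr rfl
    intro b hb
    rw [if_neg (Finset.ne_of_mem_erase hb)]
  simp only [Finset.sum_add_distrib]
  have e3 : ∑ c, ∑ b, (if c = a then (if b = a then 0 else d b) else 0) =
      ∑ b ∈ univ.erase a, d b := by
    rw [Finset.sum_comm]
    simp only [Finset.sum_ite_eq', Finset.mem_univ, if_true]
    exact e2
  have e4 : ∑ c, ∑ b, (if b = a then (if c = a then 0 else d c) else 0) =
      ∑ b ∈ univ.erase a, d b := by
    simp only [Finset.sum_ite_eq', Finset.mem_univ, if_true]
    exact e2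
  rw [e3, e4]
  ring

private theorem flip_one {γ : Type*} [DecidableEq γ] (s : ℤ) (X Y : Finset γ) (j : γ) :
    fq s ((symmDiff (symmDiff X {j}) Y).card : ℤ) - fq s ((symmDiff X Y).card : ℤ) =
      if j ∈ symmDiff X Y then -s + 2 * (symmDiff X Y).card - 1
      else s - 2 * (symmDiff X Y).card - 1 := by
  set D := symmDiff X Y with hD
  have e : symmDiff (symmDiff X {j}) Y = symmDiff D {j} := by
    rw [hD, symmDiff_assoc, symmDiff_comm {j} Y, ← symmDiff_assoc]
  rw [e]
  by_cases hj : j ∈ D
  · have e2 : symmDiff D {j} = D.erase j := by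
      ext x
      simp only [Finset.mem_symmDiff, Finset.mem_singleton, Finset.mem_erase]
      constructor
      · rintro (⟨h, h'⟩ | ⟨h, h'⟩)
        · exact ⟨h', h⟩
        · rw [h] at h'
          exact absurd hj h'
      · rintro ⟨h, h'⟩
        exact Or.inl ⟨h', h⟩
    have hc := Finset.card_erase_add_one hj
    have hc' : ((D.erase j).card : ℤ) = D.card - 1 := by
      have : (((D.erase j).card + 1 : ℕ) : ℤ) = (D.card : ℤ) := by rw [hc]
      push_cast at this
      linarith
    rw [e2, hc', if_pos hj]
    unfold fq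
    ring
  · have e2 : symmDiff D {j} = insert j D := by
      ext x
      simp only [Finset.mem_symmDiff, Finset.mem_singleton, Finset.mem_insert]
      constructor
      · rintro (⟨h, h'⟩ | ⟨h, h'⟩)
        · exact Or.inr h
        · exact Or.inl h
      · rintro (h | h)
        · exact Or.inr ⟨h, by rw [h]; exact hj⟩
        · exact Or.inl ⟨h, by intro hx; rw [hx] at h; exact hj h⟩
    have hc := Finset.card_insert_of_notMem hj
    rw [e2, hc, if_neg hj]
    unfold fq
    push_cast
    ring

private theorem sum_flip {γ : Type*} [Fintype γ] [DecidableEq γ] (s : ℤ)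
    (hs : s = Fintype.card γ) (J X Y : Finset γ) :
    (s - 2 * (symmDiff X Y).card) ^ 2 - (s - J.card) ^ 2 - 2 * s ≤
      2 * ∑ j ∈ J, (fq s ((symmDiff (symmDiff X {j}) Y).card : ℤ) -
        fq s ((symmDiff X Y).card : ℤ)) := by
  set D := symmDiff X Y with hD
  rw [Finset.sum_congr rfl (fun j _ => flip_one s X Y j), Finset.sum_ite, Finset.sum_const,
    Finset.sum_const, nsmul_eq_mul, nsmul_eq_mul]
  rw [← hD]
  have c1 : J.filter (fun j => j ∈ D) = J ∩ D := by
    ext j
    simp
  have c2 : ((J.filter (fun j => j ∉ D)).card : ℤ) = J.card - (J ∩ D).card := by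
    have h3 := Finset.card_filter_add_card_filter_not (s := J) (fun j => j ∈ D)
    rw [c1] at h3
    have h4 : ((((J ∩ D).card + (J.filter (fun j => ¬ j ∈ D)).card : ℕ)) : ℤ) = J.card := by rw [h3]
    push_cast at h4
    linarith
  rw [c1, c2]
  -- the part of `D` outside `J`
  have c3 : (J ∩ D).card + (D \ J).card = D.card := by
    have := Finset.card_sdiff_add_card_inter D J
    rw [Finset.inter_comm J D]
    omega
  have c4 : (D \ J).card + J.card ≤ Fintype.card γ := by
    have hdj : Disjoint (D \ J) J := Finset.sdiff_disjoint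
    rw [← Finset.card_union_of_disjoint hdj]
    exact Finset.card_le_univ _
  have c3z : ((J ∩ D).card : ℤ) + (D \ J).card = D.card := by exact_mod_cast c3
  have c4z : ((D \ J).card : ℤ) + J.card ≤ s := by
    rw [hs]
    exact_mod_cast c4
  have c5 : (0 : ℤ) ≤ (D \ J).card := by positivity
  have c6 : (0 : ℤ) ≤ J.card := by positivity
  set n : ℤ := ((D \ J).card : ℤ) with hn
  set w : ℤ := ((J ∩ D).card : ℤ) with hw
  set q : ℤ := (J.card : ℤ) with hq
  set m : ℤ := (D.card : ℤ) with hm
  -- e = (s - q) - 2 n, |e| ≤ s - q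
  have h1 : w * (-s + 2 * m - 1) + (q - w) * (s - 2 * m - 1) =
      ((s - 2 * m) - ((s - q) - 2 * n)) * (s - 2 * m) - q := by
    rw [← c3z]
    ring
  rw [h1]
  have h2 : ((s - q) - 2 * n) ^ 2 ≤ (s - q) ^ 2 := by
    nlinarith
  nlinarith [sq_nonneg ((s - 2 * m) - ((s - q) - 2 * n))]

/-- If no change of a sign in a row of `I` and a column of `J` increases `kk`, then the rows of
`I` are almost orthogonal to all rows. -/
theorem local_max {ι γ : Type*} [Fintype ι] [Fintype γ] [DecidableEq ι] [DecidableEq γ]
    (A : ι → Finset γ) (s : ℤ) (hs : s = Fintype.card γ) (I : Finset ι) (J : Finset γ)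
    (hmax : ∀ a ∈ I, ∀ j ∈ J, kk s (Function.update A a (symmDiff (A a) {j})) ≤ kk s A) :
    ∑ a ∈ I, ∑ b ∈ univ.erase a, (s - 2 * ((symmDiff (A a) (A b)).card : ℤ)) ^ 2 ≤
      I.card * ((Fintype.card ι : ℤ) - 1) * ((s - J.card) ^ 2 + 2 * s) := by
  have h1 : ∀ a ∈ I, ∑ b ∈ univ.erase a, ((s - 2 * ((symmDiff (A a) (A b)).card : ℤ)) ^ 2 -
      (s - J.card) ^ 2 - 2 * s) ≤ 0 := by
    intro a ha
    have h2 : ∑ b ∈ univ.erase a, ((s - 2 * ((symmDiff (A a) (A b)).card : ℤ)) ^ 2 -
      (s - J.card) ^ 2 - 2 * s) ≤ ∑ b ∈ univ.erase a, (2 * ∑ j ∈ J,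
        (fq s ((symmDiff (symmDiff (A a) {j}) (A b)).card : ℤ) -
        fq s ((symmDiff (A a) (A b)).card : ℤ))) :=
      Finset.sum_le_sum (fun b _ => sum_flip s hs J (A a) (A b))
    refine le_trans h2 ?_
    rw [← Finset.mul_sum, Finset.sum_comm, Finset.mul_sum]
    apply Finset.sum_nonpos
    intro j hj
    have h3 := hmax a ha j hj
    have h4 := kk_update s A a (symmDiff (A a) {j})
    linarith
  have h5 : ∀ a ∈ I, ∑ b ∈ univ.erase a, (s - 2 * ((symmDiff (A a) (A b)).card : ℤ)) ^ 2 ≤
      ((Fintype.card ι : ℤ) - 1) * ((s - J.card) ^ 2 + 2 * s) := by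
    intro a ha
    have h6 := h1 a ha
    have hc : ((univ.erase a).card : ℤ) = (Fintype.card ι : ℤ) - 1 := by
      rw [Finset.card_erase_of_mem (Finset.mem_univ a), Finset.card_univ]
      have : 1 ≤ Fintype.card ι := Fintype.card_pos_iff.2 ⟨a⟩
      push_cast [Nat.cast_sub this]
      ring
    rw [Finset.sum_sub_distrib, Finset.sum_sub_distrib, Finset.sum_const, Finset.sum_const,
      nsmul_eq_mul, nsmul_eq_mul, hc] at h6
    linarith
  calc ∑ a ∈ I, ∑ b ∈ univ.erase a, (s - 2 * ((symmDiff (A a) (A b)).card : ℤ)) ^ 2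
      ≤ ∑ a ∈ I, ((Fintype.card ι : ℤ) - 1) * ((s - J.card) ^ 2 + 2 * s) := Finset.sum_le_sum h5
    _ = _ := by
      rw [Finset.sum_const, nsmul_eq_mul]
      ring

/-- Lower bound for `kk` from near orthogonality of the rows of `I`. -/
theorem kk_ge_of {ι γ : Type*} [Fintype ι] [Fintype γ] [DecidableEq ι] [DecidableEq γ]
    (A : ι → Finset γ) (s : ℤ) (hs : s = Fintype.card γ) (I : Finset ι) (X : ℤ)
    (hX : ∑ a ∈ I, ∑ b ∈ univ.erase a, (s - 2 * ((symmDiff (A a) (A b)).card : ℤ)) ^ 2 ≤ X) :
    (Fintype.card ι : ℤ) ^ 2 * s ^ 2 - Fintype.card ι * s ^ 2 - 2 * X -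
      ((Fintype.card ι : ℤ) - I.card) ^ 2 * s ^ 2 ≤ 4 * kk s A := by
  set G : ι → ι → ℤ := fun a b => (s - 2 * ((symmDiff (A a) (A b)).card : ℤ)) ^ 2 with hG
  have hG0 : ∀ a b, 0 ≤ G a b := fun a b => sq_nonneg _
  have hGs : ∀ a b, G a b ≤ s ^ 2 := by
    intro a b
    have h1 := Finset.card_le_univ (symmDiff (A a) (A b))
    have h2 : ((symmDiff (A a) (A b)).card : ℤ) ≤ s := by
      rw [hs]
      exact_mod_cast h1
    have h3 : (0 : ℤ) ≤ (symmDiff (A a) (A b)).card := by positivity
    simp only [hG]
    nlinarith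
  have hsym : ∀ a b, G a b = G b a := fun a b => by
    simp only [hG]
    rw [symmDiff_comm]
  have hkk : 4 * kk s A = (Fintype.card ι : ℤ) ^ 2 * s ^ 2 - ∑ a, ∑ b, G a b := by
    have h1 : ∀ a b, 4 * fq s ((symmDiff (A a) (A b)).card : ℤ) = s ^ 2 - G a b := by
      intro a b
      simp only [hG]
      unfold fq
      ring
    unfold kk
    simp only [Finset.mul_sum, h1, Finset.sum_sub_distrib, Finset.sum_const, Finset.card_univ,
      nsmul_eq_mul]
    ring
  rw [hkk]
  have hterm : ∀ a b, G a b ≤ (if a = b then s ^ 2 else 0) +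
      ((if a ∈ I then (if a = b then 0 else G a b) else 0) +
      ((if b ∈ I then (if b = a then 0 else G b a) else 0) +
      (if a ∈ Iᶜ then (if b ∈ Iᶜ then s ^ 2 else 0) else 0))) := by
    intro a b
    have g1 := hG0 a b
    have g2 := hGs a b
    have g3 := hG0 b a
    have g4 : 0 ≤ s ^ 2 := sq_nonneg s
    by_cases hab : a = b
    · subst hab
      simp only [if_true]
      split_ifs <;> linarith
    · have hba : ¬ b = a := fun h => hab h.symm
      by_cases ha : a ∈ I
      · simp only [hab, hba, ha, if_true, if_false]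
        split_ifs <;> linarith
      · by_cases hb : b ∈ I
        · have hbc : b ∉ Iᶜ := by
            rw [Finset.mem_compl]
            exact fun h => h hb
          rw [if_neg hab, if_neg ha, if_pos hb, if_neg hba, if_neg hbc, hsym a b]
          split_ifs <;> linarith
        · rw [if_neg hab, if_neg ha, if_neg hb, if_pos (Finset.mem_compl.2 ha),
            if_pos (Finset.mem_compl.2 hb)]
          linarith
  have hsum : ∑ a, ∑ b, G a b ≤ Fintype.card ι * s ^ 2 + 2 * X +
      ((Fintype.card ι : ℤ) - I.card) ^ 2 * s ^ 2 := by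
    calc ∑ a, ∑ b, G a b ≤ ∑ a, ∑ b, ((if a = b then s ^ 2 else 0) +
      ((if a ∈ I then (if a = b then 0 else G a b) else 0) +
      ((if b ∈ I then (if b = a then 0 else G b a) else 0) +
      (if a ∈ Iᶜ then (if b ∈ Iᶜ then s ^ 2 else 0) else 0)))) :=
          Finset.sum_le_sum (fun a _ => Finset.sum_le_sum (fun b _ => hterm a b))
      _ ≤ _ := by
        simp only [Finset.sum_add_distrib]
        have t1 : ∑ a : ι, ∑ b : ι, (if a = b then s ^ 2 else 0) = Fintype.card ι * s ^ 2 := by
          simp only [Finset.sum_ite_eq, Finset.mem_univ, if_true, Finset.sum_const,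
            Finset.card_univ, nsmul_eq_mul]
        have t2 : ∑ a : ι, ∑ b : ι, (if a ∈ I then (if a = b then 0 else G a b) else 0) =
            ∑ a ∈ I, ∑ b ∈ univ.erase a, G a b := by
          rw [← Finset.sum_filter_add_sum_filter_not univ (fun a => a ∈ I)]
          have z : ∑ a ∈ univ.filter (fun a => ¬ a ∈ I), ∑ b : ι,
              (if a ∈ I then (if a = b then 0 else G a b) else 0) = 0 := by
            apply Finset.sum_eq_zero
            intro a ha
            apply Finset.sum_eq_zero
            intro b _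
            rw [if_neg (Finset.mem_filter.1 ha).2]
          rw [z, add_zero, Finset.filter_mem_eq_inter, Finset.univ_inter]
          apply Finset.sum_congr rfl
          intro a ha
          rw [← Finset.sum_erase (s := univ) (a := a)
            (f := fun b => if a ∈ I then (if a = b then 0 else G a b) else 0) (by simp)]
          apply Finset.sum_congr rfl
          intro b hb
          rw [if_pos ha, if_neg (fun h => Finset.ne_of_mem_erase hb h.symm)]
        have t3 : ∑ a : ι, ∑ b : ι, (if b ∈ I then (if b = a then 0 else G b a) else 0) =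
            ∑ a ∈ I, ∑ b ∈ univ.erase a, G a b := by
          rw [Finset.sum_comm]
          exact t2
        have t4 : ∑ a : ι, ∑ b : ι, (if a ∈ Iᶜ then (if b ∈ Iᶜ then s ^ 2 else 0) else 0) =
            ((Fintype.card ι : ℤ) - I.card) ^ 2 * s ^ 2 := by
          have hcc : ((Iᶜ.card : ℕ) : ℤ) = (Fintype.card ι : ℤ) - I.card := by
            rw [Finset.card_compl]
            push_cast [Nat.cast_sub (Finset.card_le_univ I)]
            ring
          have i1 : ∀ a : ι, ∑ b : ι, (if a ∈ Iᶜ then (if b ∈ Iᶜ then s ^ 2 else 0) else 0) =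
              if a ∈ Iᶜ then (Iᶜ.card : ℤ) * s ^ 2 else 0 := by
            intro a
            split_ifs with ha
            · rw [Finset.sum_ite_mem, Finset.univ_inter, Finset.sum_const, nsmul_eq_mul]
            · simp
          rw [Finset.sum_congr rfl (fun a _ => i1 a), Finset.sum_ite_mem, Finset.univ_inter,
            Finset.sum_const, nsmul_eq_mul, hcc]
          ring
        rw [t1, t2, t3, t4]
        linarith
  linarith

end Pool.Agent.H61.NC
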