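import Pool.Agent.H61.NC.Mod

/-!
# The medium gadget: shifted intervals
-/

set_option autoImplicit false

namespace Pool.Agent.H61.NC

open Finset

/-- interval of length `u` with left end `o` -/
private def itv (N u o : ℕ) : Finset (Fin N) :=
  univ.filter (fun x : Fin N => o ≤ (x : ℕ) ∧ (x : ℕ) < o + u)

private theorem card_between (N c d : ℕ) (hd : d ≤ N) :
    (univ.filter (fun x : Fin N => c ≤ (x : ℕ) ∧ (x : ℕ) < d)).card = d - c := by
  have h : (univ.filter (fun x : Fin N => c ≤ (x : ℕ) ∧ (x : ℕ) < d)).map Fin.valEmbedding =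
      Finset.Ico c d := by
    ext y
    simp only [Finset.mem_map, Finset.mem_filter, Finset.mem_univ, true_and, Fin.valEmbedding_apply,
      Finset.mem_Ico]
    constructor
    · rintro ⟨x, hx, rfl⟩
      exact hx
    · intro hy
      exact ⟨⟨y, by omega⟩, hy, rfl⟩
  rw [← Finset.card_map Fin.valEmbedding, h, Nat.card_Ico]

private theorem card_itv (N u o : ℕ) (h : o + u ≤ N) : (itv N u o).card = u := by
  unfold itv
  rw [card_between N o (o + u) h]
  omega

private theorem card_inter_itv (N u a b : ℕ) (ha : a + u ≤ N) (hb : b + u ≤ N) :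
    (itv N u a ∩ itv N u b).card = min a b + u - max a b := by
  have h : itv N u a ∩ itv N u b =
      univ.filter (fun x : Fin N => max a b ≤ (x : ℕ) ∧ (x : ℕ) < min a b + u) := by
    ext x
    simp only [itv, Finset.mem_inter, Finset.mem_filter, Finset.mem_univ, true_and]
    omega
  rw [h, card_between N _ _ (by omega)]

/-- offsets at time `n` -/
private def off (t u n i : ℕ) : ℕ := min (i * u) (n - i * (t * u))

private theorem off_le (t u n i : ℕ) (hi : i < t) : off t u n i + u ≤ t * u := by
  have h1 : off t u n i ≤ i * u := min_le_left _ _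
  have h2 : (i + 1) * u ≤ t * u := Nat.mul_le_mul_right u hi
  have h3 : (i + 1) * u = i * u + u := by ring
  omega

private def med (t u n : ℕ) : Fin t → Finset (Fin (t * u)) := fun i => itv (t * u) u (off t u n i)

private theorem card_med (t u n : ℕ) (i : Fin t) : (med t u n i).card = u :=
  card_itv _ _ _ (off_le t u n i i.2)

private theorem off_step (t u n i : ℕ) (hi : i < t) (h : i ≠ n / (t * u)) (hu : 0 < u) :
    off t u (n + 1) i = off t u n i := by
  have ht : 0 < t := by omega
  have hL : 0 < t * u := Nat.mul_pos ht hu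
  unfold off
  rcases Nat.lt_or_ge n (i * (t * u)) with h1 | h1
  · have e1 : n - i * (t * u) = 0 := by omega
    have e2 : n + 1 - i * (t * u) = 0 := by omega
    rw [e1, e2]
  · have h2 : i ≤ n / (t * u) := (Nat.le_div_iff_mul_le hL).2 h1
    have h3 : i + 1 ≤ n / (t * u) := by omega
    have h4 : (i + 1) * (t * u) ≤ n := (Nat.le_div_iff_mul_le hL).1 h3
    have h5 : (i + 1) * (t * u) = i * (t * u) + t * u := by ring
    have h6 : i * u ≤ t * u := Nat.mul_le_mul_right u hi.le
    rw [min_eq_left (by omega), min_eq_left (by omega)]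

private theorem off_step' (t u n i : ℕ) :
    off t u n i ≤ off t u (n + 1) i ∧ off t u (n + 1) i ≤ off t u n i + 1 := by
  unfold off
  constructor <;> omega

private theorem med_step (t u n : ℕ) (hu : 0 < u) (s : ℤ) (hs : ((t * u : ℕ) : ℤ) ≤ s) :
    |kk s (med t u (n + 1)) - kk s (med t u n)| ≤ 4 * t * s := by
  classical
  rcases Nat.eq_zero_or_pos t with ht | ht
  · subst ht
    simp [kk]
  by_cases hlt : n / (t * u) < t
  · let a0 : Fin t := ⟨n / (t * u), hlt⟩
    have hne : ∀ a : Fin t, a ≠ a0 → med t u (n + 1) a = med t u n a := by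
      intro a ha
      unfold med
      rw [off_step t u n a a.2 (fun h => ha (Fin.ext h)) hu]
    set J : Finset (Fin (t * u)) := med t u (n + 1) a0 ∩ med t u n a0 with hJ
    have hJc : u ≤ J.card + 1 := by
      rw [hJ]
      simp only [med]
      rw [card_inter_itv _ _ _ _ (off_le t u (n + 1) a0 a0.2) (off_le t u n a0 a0.2)]
      have := off_step' t u n a0
      omega
    have hc1 := card_med t u (n + 1) a0
    have hc2 := card_med t u n a0
    have hJ1 : (symmDiff (med t u (n + 1) a0) J).card ≤ 1 := by
      have h1 := card_sd (med t u (n + 1) a0) J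
      have h2 : med t u (n + 1) a0 ∩ J = J := by
        rw [hJ, ← Finset.inter_assoc, Finset.inter_self]
      rw [h2, hc1] at h1
      have h3 : J.card ≤ u :=
        le_trans (Finset.card_le_card Finset.inter_subset_left) hc1.le
      omega
    have hJ2 : (symmDiff J (med t u n a0)).card ≤ 1 := by
      have h1 := card_sd J (med t u n a0)
      have h2 : J ∩ med t u n a0 = J := by
        rw [hJ, Finset.inter_assoc, Finset.inter_self]
      rw [h2, hc2] at h1
      have h3 : J.card ≤ u :=
        le_trans (Finset.card_le_card Finset.inter_subset_left) hc1.le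
      omega
    let A : Fin t → Finset (Fin (t * u)) := Function.update (med t u n) a0 J
    have hcard : ((Fintype.card (Fin (t * u)) : ℕ) : ℤ) ≤ s := by
      rw [Fintype.card_fin]
      exact hs
    have b1 := flip_bound (med t u (n + 1)) A a0 (fun a ha => by
      simp only [A]
      rw [Function.update_of_ne ha, hne a ha]) (by
      simp only [A]
      rw [Function.update_self]
      exact hJ1) s hcard
    have b2 := flip_bound A (med t u n) a0 (fun a ha => by
      simp only [A]
      rw [Function.update_of_ne ha]) (by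
      simp only [A]
      rw [Function.update_self]
      exact hJ2) s hcard
    rw [Fintype.card_fin] at b1 b2
    have b3 := abs_add_le (kk s (med t u (n + 1)) - kk s A) (kk s A - kk s (med t u n))
    have e : kk s (med t u (n + 1)) - kk s A + (kk s A - kk s (med t u n)) =
        kk s (med t u (n + 1)) - kk s (med t u n) := by ring
    rw [e] at b3
    linarith
  · have h0 : med t u (n + 1) = med t u n := by
      funext a
      unfold med
      rw [off_step t u n a a.2 (by
        have := a.2
        omega) hu]
    rw [h0, sub_self, abs_zero]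
    have : (0 : ℤ) ≤ s := le_trans (by positivity) hs
    positivity

private theorem kk_med_zero (t u : ℕ) (s : ℤ) : kk s (med t u 0) = 0 := by
  unfold kk
  apply Finset.sum_eq_zero
  intro a _
  apply Finset.sum_eq_zero
  intro b _
  have h : med t u 0 a = med t u 0 b := by
    unfold med off
    simp
  rw [h]
  simp [fq]

private theorem kk_med_end (t u : ℕ) (hu : 0 < u) (s : ℤ) :
    kk s (med t u (t * (t * u))) = (t : ℤ) * (t - 1) * fq s (2 * u) := by
  classical
  have ho : ∀ i : Fin t, off t u (t * (t * u)) i = i * u := by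
    intro i
    unfold off
    apply min_eq_left
    have h1 : ((i : ℕ) + 1) * (t * u) ≤ t * (t * u) := Nat.mul_le_mul_right _ i.2
    have h2 : ((i : ℕ) + 1) * (t * u) = i * (t * u) + t * u := by ring
    have h3 : (i : ℕ) * u ≤ t * u := Nat.mul_le_mul_right u i.2.le
    omega
  have h1 : ∀ a b : Fin t, fq s ((symmDiff (med t u (t * (t * u)) a)
      (med t u (t * (t * u)) b)).card : ℤ) = if b = a then 0 else fq s (2 * u) := by
    intro a b
    by_cases hab : b = a
    · rw [hab]
      simp [fq]
    · rw [if_neg hab]
      have h2 := card_sd (med t u (t * (t * u)) a) (med t u (t * (t * u)) b)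
      rw [card_med, card_med] at h2
      have h3 : (med t u (t * (t * u)) a ∩ med t u (t * (t * u)) b).card = 0 := by
        simp only [med]
        rw [card_inter_itv _ _ _ _ (off_le t u _ a a.2) (off_le t u _ b b.2), ho, ho]
        have hne : (a : ℕ) ≠ b := fun h => hab (Fin.ext h.symm)
        rcases Nat.lt_or_gt_of_ne hne with h | h
        · have : ((a : ℕ) + 1) * u ≤ b * u := Nat.mul_le_mul_right u h
          have h5 : ((a : ℕ) + 1) * u = a * u + u := by ring
          omega
        · have : ((b : ℕ) + 1) * u ≤ a * u := Nat.mul_le_mul_right u h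
          have h5 : ((b : ℕ) + 1) * u = b * u + u := by ring
          omega
      rw [h3] at h2
      have h4 : (symmDiff (med t u (t * (t * u)) a) (med t u (t * (t * u)) b)).card = 2 * u := by
        omega
      rw [h4]
      push_cast
      rfl
  unfold kk
  simp only [h1]
  have h2 : ∀ a : Fin t, ∑ b : Fin t, (if b = a then (0 : ℤ) else fq s (2 * u)) =
      ((t : ℤ) - 1) * fq s (2 * u) := by
    intro a
    have h3 : ∀ b : Fin t, (if b = a then (0 : ℤ) else fq s (2 * u)) =
        fq s (2 * u) - (if b = a then fq s (2 * u) else 0) := by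
      intro b
      split_ifs <;> simp
    rw [Finset.sum_congr rfl (fun b _ => h3 b), Finset.sum_sub_distrib, Finset.sum_const,
      Finset.sum_ite_eq', if_pos (Finset.mem_univ a), Finset.card_univ, Fintype.card_fin,
      nsmul_eq_mul]
    ring
  rw [Finset.sum_congr rfl (fun a _ => h2 a), Finset.sum_const, Finset.card_univ, Fintype.card_fin,
    nsmul_eq_mul]
  ring

/-- The medium gadget: all rows have `u` elements, and `kk` takes a value in every interval of
length `4 t s` between 0 and `t (t-1) f(2u)`. -/
theorem medium (t u : ℕ) (hu : 0 < u) (s : ℤ) (hs : ((t * u : ℕ) : ℤ) ≤ s) :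
    ∃ Y0 : Fin t → Finset (Fin (t * u)), (∀ i, (Y0 i).card = u) ∧ kk s Y0 = 0 ∧
      ∀ lo hi T : ℤ, lo + 4 * t * s ≤ hi → lo ≤ T → T - (t : ℤ) * (t - 1) * fq s (2 * u) ≤ hi →
        ∃ Y : Fin t → Finset (Fin (t * u)), (∀ i, (Y i).card = u) ∧ lo ≤ T - kk s Y ∧
          T - kk s Y ≤ hi := by
  classical
  refine ⟨med t u 0, card_med t u 0, kk_med_zero t u s, ?_⟩
  intro lo hi T h1 h2 h3
  have hex : ∃ n : ℕ, T - kk s (med t u n) ≤ hi := ⟨t * (t * u), by
    rw [kk_med_end t u hu]
    exact h3⟩
  refine ⟨med t u (Nat.find hex), card_med t u _, ?_, Nat.find_spec hex⟩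
  rcases Nat.eq_zero_or_pos (Nat.find hex) with h | h
  · rw [h, kk_med_zero]
    linarith
  · obtain ⟨m, hm⟩ : ∃ m, Nat.find hex = m + 1 := ⟨Nat.find hex - 1, by omega⟩
    have h4 := Nat.find_min hex (m := m) (by omega)
    push Not at h4
    have h5 := med_step t u m hu s hs
    rw [abs_le] at h5
    rw [hm]
    linarith [h5.2]

end Pool.Agent.H61.NC
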