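import Pool.Agent.H61.NC.Fine
import Pool.Agent.H61.NC.Med
import Pool.Agent.H61.NC.Max

/-!
# The assembled family
-/

set_option autoImplicit false

namespace Pool.Agent.H61.NC

open Finset

private def Adj {ι γ : Type*} [DecidableEq γ] (A A' : ι → Finset γ) : Prop :=
  ∃ a0, (∀ a, a ≠ a0 → A a = A' a) ∧ (symmDiff (A a0) (A' a0)).card ≤ 1

private theorem adj_right {ι ι' γ γ' : Type*} [DecidableEq γ] [DecidableEq γ'] (A : ι → Finset γ)
    (B B' : ι' → Finset γ') (h : Adj B B') : Adj (bsum A B) (bsum A B') := by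
  obtain ⟨b0, h1, h2⟩ := h
  refine ⟨Sum.inr b0, ?_, ?_⟩
  · rintro (a | b) hab
    · rfl
    · simp only [bsum, Sum.elim_inr]
      rw [h1 b (fun h => hab (by rw [h]))]
  · simp only [bsum, Sum.elim_inr]
    rw [map_sd, Finset.card_map]
    exact h2

private theorem adj_left {ι ι' γ γ' : Type*} [DecidableEq γ] [DecidableEq γ'] (A A' : ι → Finset γ)
    (B : ι' → Finset γ') (h : Adj A A') : Adj (bsum A B) (bsum A' B) := by
  obtain ⟨b0, h1, h2⟩ := h
  refine ⟨Sum.inl b0, ?_, ?_⟩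
  · rintro (a | b) hab
    · simp only [bsum, Sum.elim_inl]
      rw [h1 a (fun h => hab (by rw [h]))]
    · rfl
  · simp only [bsum, Sum.elim_inl]
    rw [map_sd, Finset.card_map]
    exact h2

private theorem adj_bound {ι γ : Type*} [Fintype ι] [Fintype γ] [DecidableEq γ]
    (A A' : ι → Finset γ) (h : Adj A A') (s : ℤ) (hs : (Fintype.card γ : ℤ) ≤ s) :
    |kk s A - kk s A'| ≤ 2 * Fintype.card ι * s := by
  obtain ⟨a0, h1, h2⟩ := h
  exact flip_bound A A' a0 h1 h2 s hs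

private theorem card_congr {ι ι' γ γ' : Type*} (A A' : ι → Finset γ) (B B' : ι' → Finset γ')
    (h : ∀ a, (A a).card = (A' a).card) (h' : ∀ b, (B b).card = (B' b).card) :
    ∀ x, (bsum A B x).card = (bsum A' B' x).card := by
  rintro (a | b)
  · rw [card_bsum_inl, card_bsum_inl, h]
  · rw [card_bsum_inr, card_bsum_inr, h']

/-- parity gadget -/
private def gad (τ : ℕ) : Fin 2 → Finset (Fin 1) := fun i => if (i : ℕ) < τ then univ else ∅

private theorem alpha_gad (τ : ℕ) (h : τ ≤ 2) : alpha (gad τ) = τ := by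
  unfold alpha gad
  rw [Fin.sum_univ_two]
  have hτ : τ = 0 ∨ τ = 1 ∨ τ = 2 := by omega
  rcases hτ with rfl | rfl | rfl <;> simp

private theorem gad_adj (τ : ℕ) (h : τ < 2) : Adj (gad (τ + 1)) (gad τ) := by
  refine ⟨⟨τ, h⟩, ?_, ?_⟩
  · intro a ha
    unfold gad
    have h1 : (a : ℕ) ≠ τ := fun h => ha (Fin.ext h)
    by_cases h2 : (a : ℕ) < τ
    · rw [if_pos (by omega), if_pos h2]
    · rw [if_neg (by omega), if_neg h2]
  · refine le_trans (Finset.card_le_univ _) ?_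
    simp

/-- the bulk -/
private def blk {r s : ℕ} (E : Finset (Fin r × Fin s)) : Fin r → Finset (Fin s) :=
  fun b => univ.filter (fun j => (b, j) ∈ E)

private theorem blk_adj {r s : ℕ} (E : Finset (Fin r × Fin s)) (e : Fin r × Fin s) :
    Adj (blk (insert e E)) (blk E) := by
  refine ⟨e.1, ?_, ?_⟩
  · intro a ha
    unfold blk
    ext j
    simp only [Finset.mem_filter, Finset.mem_univ, true_and, Finset.mem_insert]
    constructor
    · rintro (h | h)
      · exact absurd (congrArg Prod.fst h) ha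
      · exact h
    · intro h
      exact Or.inr h
  · have h : symmDiff (blk (insert e E) e.1) (blk E e.1) ⊆ {e.2} := by
      intro j hj
      rw [Finset.mem_symmDiff] at hj
      simp only [blk, Finset.mem_filter, Finset.mem_univ, true_and, Finset.mem_insert] at hj
      rw [Finset.mem_singleton]
      rcases hj with ⟨h1, h2⟩ | ⟨h1, h2⟩
      · rcases h1 with h1 | h1
        · exact congrArg Prod.snd h1
        · exact absurd h1 h2
      · exact absurd (Or.inr h1) h2
    refine le_trans (Finset.card_le_card h) ?_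
    simp

private theorem update_bsum {ι ι' γ γ' : Type*} [DecidableEq ι] [DecidableEq ι'] [DecidableEq γ]
    [DecidableEq γ'] (A : ι → Finset γ) (B : ι' → Finset γ') (b : ι') (j : γ') :
    Function.update (bsum A B) (Sum.inr b) (symmDiff (bsum A B (Sum.inr b)) {Sum.inr j}) =
      bsum A (Function.update B b (symmDiff (B b) {j})) := by
  funext x
  rcases x with a | b'
  · rw [Function.update_of_ne (by simp)]
    rfl
  · by_cases h : b' = b
    · subst h
      rw [Function.update_self]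
      simp only [bsum, Sum.elim_inr, Function.update_self]
      rw [← map_sd, Finset.map_singleton]
      rfl
    · rw [Function.update_of_ne (fun h' => h (Sum.inr.inj h'))]
      simp only [bsum, Sum.elim_inr]
      rw [Function.update_of_ne h]

private theorem update_blk {r s : ℕ} (E : Finset (Fin r × Fin s)) (b : Fin r) (j : Fin s) :
    Function.update (blk E) b (symmDiff (blk E b) {j}) = blk (symmDiff E {(b, j)}) := by
  funext b'
  by_cases h : b' = b
  · subst h
    rw [Function.update_self]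
    ext x
    simp only [blk, Finset.mem_symmDiff, Finset.mem_filter, Finset.mem_univ, true_and,
      Finset.mem_singleton, Prod.mk.injEq]
  · rw [Function.update_of_ne h]
    ext x
    simp only [blk, Finset.mem_symmDiff, Finset.mem_filter, Finset.mem_univ, true_and,
      Finset.mem_singleton, Prod.mk.injEq, h, false_and, not_false_eq_true, and_true, or_false]

/-- discrete intermediate value theorem on the subsets of a finite set -/
private theorem ivt {α : Type*} [DecidableEq α] (F : Finset α → ℤ) (D U : ℤ)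
    (hF : ∀ E x, F (insert x E) ≤ F E + D) (h0 : F ∅ ≤ U) (Em : Finset α) :
    (F Em ≤ U) ∨ ∃ E, U - D ≤ F E ∧ F E ≤ U := by
  induction Em using Finset.induction_on with
  | empty => exact Or.inl h0
  | insert x E _ ih =>
    rcases ih with h | h
    · by_cases h1 : F (insert x E) ≤ U
      · exact Or.inl h1
      · right
        push Not at h1
        exact ⟨E, by linarith [hF E x], h⟩
    · exact Or.inr h

private theorem kk_le {ι γ : Type*} [Fintype ι] [Fintype γ] [DecidableEq γ] (A : ι → Finset γ)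
    (s : ℤ) (hs : (Fintype.card γ : ℤ) ≤ s) :
    kk s A ≤ 2 * Fintype.card ι * s * ∑ a, ((A a).card : ℤ) := by
  have hs0 : 0 ≤ s := le_trans (by positivity) hs
  have h1 : ∀ a b, fq s ((symmDiff (A a) (A b)).card : ℤ) ≤ s * (A a).card + s * (A b).card := by
    intro a b
    have h2 : (symmDiff (A a) (A b)).card ≤ (A a).card + (A b).card := by
      have := card_sd (A a) (A b)
      omega
    have h3 : ((symmDiff (A a) (A b)).card : ℤ) ≤ (A a).card + (A b).card := by exact_mod_cast h2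
    have h4 : (0 : ℤ) ≤ (symmDiff (A a) (A b)).card := by positivity
    unfold fq
    nlinarith
  calc kk s A ≤ ∑ a, ∑ b, (s * ((A a).card : ℤ) + s * (A b).card) :=
        Finset.sum_le_sum (fun a _ => Finset.sum_le_sum (fun b _ => h1 a b))
    _ = 2 * Fintype.card ι * s * ∑ a, ((A a).card : ℤ) := by
        simp only [Finset.sum_add_distrib, Finset.sum_const, Finset.card_univ, nsmul_eq_mul,
          ← Finset.mul_sum]
        ring

/-- The assembly. -/
theorem core (r s k t r' s' m c : ℕ) (hm : m = s / 2 % 2) (hr : r = 16 + (6 + (t + (2 + r'))))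
    (hs : s = 256 * k + (3 * (1 + (1 + m)) + (t * 80 + (1 + s'))))
    (hrs : r ≤ s) (hk : s < k ^ 2) (htk : t ≤ k) (ht : r ≤ t ^ 2) (ht2 : 2 ≤ t)
    (hks : 32 * k ≤ s) (hc1 : 400 * k * r * s ≤ c)
    (hc2 : (8 * (c : ℤ)) ≤ (r : ℤ) ^ 2 * s ^ 2 - r * s ^ 2 -
      2 * (r' * ((r : ℤ) - 1) * ((s - s') ^ 2 + 2 * s)) - ((r : ℤ) - r') ^ 2 * s ^ 2)
    (hres : (4 : ℤ) ∣ (c : ℤ) * (c - ((r : ℤ) - 1) * ((s : ℤ) - 1))) :
    c ∈ Pool.Agent.H20.Neg.S 4 r s := by
  classical
  have hk1 : 2 ≤ k := le_trans ht2 htk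
  have hr24 : 26 ≤ r := by omega
  -- base families
  obtain ⟨X0, -, hX0⟩ := Finset.exists_subset_card_eq
    (s := (univ : Finset (Fin (16 * k + 16 * k)))) (n := 16 * k) (by simp)
  set P0 : Fin 4 × Bool → Bool → Finset (Fin (16 * k + 16 * k)) := fun _ _ => X0 with hP0
  obtain ⟨Q0, hQ0t, hQ0f, hQ0s⟩ := small_pairs s m 0 (by norm_num)
  have hs80 : ((t * 80 : ℕ) : ℤ) ≤ (s : ℤ) := by
    have : t * 80 ≤ s := by omega
    exact_mod_cast this
  obtain ⟨Y0, hY0c, hY0k, hmed⟩ := medium t 80 (by norm_num) (s : ℤ) hs80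
  set V : ℕ → Finset (Fin r' × Fin s') → ℤ := fun τ E =>
    kk (s : ℤ) (bsum (fam P0) (bsum (fam Q0) (bsum Y0 (bsum (gad τ) (blk E))))) with hV
  have hcardr : Fintype.card (((Fin 4 × Bool) × Bool) ⊕ ((Fin 3 × Bool) ⊕ (Fin t ⊕
      (Fin 2 ⊕ Fin r')))) = r := by
    simp only [Fintype.card_sum, Fintype.card_prod, Fintype.card_fin, Fintype.card_bool]
    omega
  have hcards : Fintype.card (((Fin 4 × Bool) × Fin (16 * k + 16 * k)) ⊕
      ((Fin 3 × Fin (1 + (1 + m))) ⊕ (Fin (t * 80) ⊕ (Fin 1 ⊕ Fin s')))) = s := by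
    simp only [Fintype.card_sum, Fintype.card_prod, Fintype.card_fin, Fintype.card_bool]
    omega
  have hcards' : ((Fintype.card (((Fin 4 × Bool) × Fin (16 * k + 16 * k)) ⊕
      ((Fin 3 × Fin (1 + (1 + m))) ⊕ (Fin (t * 80) ⊕ (Fin 1 ⊕ Fin s')))) : ℕ) : ℤ) ≤ (s : ℤ) := by
    rw [hcards]
  have hsz : (0 : ℤ) ≤ s := by positivity
  have hrz : (0 : ℤ) ≤ r := by positivity
  -- step bounds
  have hstepE : ∀ E x, V 0 (insert x E) ≤ V 0 E + 2 * r * s := by
    intro E x
    have h1 := adj_bound _ _ (adj_right (fam P0) _ _ (adj_right (fam Q0) _ _ (adj_right Y0 _ _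
      (adj_right (gad 0) _ _ (blk_adj E x))))) (s : ℤ) hcards'
    rw [hcardr, abs_le] at h1
    simp only [hV]
    linarith [h1.2]
  have hstepτ : ∀ E, ∀ τ, τ < 2 → |V (τ + 1) E - V τ E| ≤ 2 * r * s := by
    intro E τ hτ
    have h1 := adj_bound _ _ (adj_right (fam P0) _ _ (adj_right (fam Q0) _ _ (adj_right Y0 _ _
      (adj_left _ _ (blk E) (gad_adj τ hτ))))) (s : ℤ) hcards'
    rw [hcardr] at h1
    exact h1
  have hτ4 : ∀ E, ∀ τ, τ ≤ 2 → |V τ E - V 0 E| ≤ 4 * r * s := by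
    intro E τ hτ
    have h0 := hstepτ E 0 (by norm_num)
    have h1 := hstepτ E 1 (by norm_num)
    rw [abs_le] at h0 h1 ⊢
    have hp : (0 : ℤ) ≤ 2 * r * s := by positivity
    have hcase : τ = 0 ∨ τ = 1 ∨ τ = 2 := by omega
    rcases hcase with h | h | h
    · subst h
      constructor <;> linarith
    · subst h
      norm_num at h0 ⊢
      constructor <;> linarith [h0.1, h0.2]
    · subst h
      norm_num at h0 h1 ⊢
      constructor <;> linarith [h0.1, h0.2, h1.1, h1.2]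
  -- value at the empty bulk
  have hV0 : V 0 ∅ ≤ 2 * r * s * (256 * k + (6 + 3 * m) + 80 * t) := by
    have h1 := kk_le (bsum (fam P0) (bsum (fam Q0) (bsum Y0 (bsum (gad 0)
      (blk (∅ : Finset (Fin r' × Fin s'))))))) (s : ℤ) hcards'
    rw [hcardr] at h1
    have h2 : ∑ a, (((bsum (fam P0) (bsum (fam Q0) (bsum Y0 (bsum (gad 0)
      (blk (∅ : Finset (Fin r' × Fin s'))))))) a).card : ℤ) =
        256 * k + (6 + 3 * m) + 80 * t := by
      simp only [Fintype.sum_sum_type, card_bsum_inl, card_bsum_inr, card_fam]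
      have e1 : ∑ x : (Fin 4 × Bool) × Bool, ((P0 x.1 x.2).card : ℤ) = 256 * k := by
        simp only [hP0, hX0, Finset.sum_const, Finset.card_univ, Fintype.card_prod,
          Fintype.card_fin, Fintype.card_bool, nsmul_eq_mul]
        push_cast
        ring
      have e2 : ∑ x : Fin 3 × Bool, ((Q0 x.1 x.2).card : ℤ) = 6 + 3 * m := by
        rw [Fintype.sum_prod_type]
        simp only [Fintype.sum_bool, hQ0t, hQ0f]
        rw [Fin.sum_univ_three]
        push_cast
        ring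
      have e3 : ∑ x : Fin t, ((Y0 x).card : ℤ) = 80 * t := by
        simp only [hY0c, Finset.sum_const, Finset.card_univ, Fintype.card_fin, nsmul_eq_mul]
        push_cast
        ring
      have e4 : ∑ x : Fin 2, ((gad 0 x).card : ℤ) = 0 := by
        simp [gad]
      have e5 : ∑ x : Fin r', ((blk (∅ : Finset (Fin r' × Fin s')) x).card : ℤ) = 0 := by
        simp [blk]
      rw [e1, e2, e3, e4, e5]
      ring
    rw [h2] at h1
    simp only [hV]
    exact h1
  -- value at the best bulk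
  obtain ⟨Em, hEm⟩ := Finite.exists_max (fun E : Finset (Fin r' × Fin s') => V 0 E)
  have hVm : 2 * (c : ℤ) ≤ V 0 Em := by
    let eI : Fin r' ↪ (((Fin 4 × Bool) × Bool) ⊕ ((Fin 3 × Bool) ⊕ (Fin t ⊕ (Fin 2 ⊕ Fin r')))) :=
      ⟨fun b => Sum.inr (Sum.inr (Sum.inr (Sum.inr b))), fun a b h => by simpa using h⟩
    let eJ : Fin s' ↪ (((Fin 4 × Bool) × Fin (16 * k + 16 * k)) ⊕
      ((Fin 3 × Fin (1 + (1 + m))) ⊕ (Fin (t * 80) ⊕ (Fin 1 ⊕ Fin s')))) :=
      ⟨fun b => Sum.inr (Sum.inr (Sum.inr (Sum.inr b))), fun a b h => by simpa using h⟩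
    have hsc : (s : ℤ) = (Fintype.card (((Fin 4 × Bool) × Fin (16 * k + 16 * k)) ⊕
      ((Fin 3 × Fin (1 + (1 + m))) ⊕ (Fin (t * 80) ⊕ (Fin 1 ⊕ Fin s')))) : ℕ) := by
      rw [hcards]
    have hI : ((univ.map eI).card : ℤ) = r' := by simp
    have hJ : ((univ.map eJ).card : ℤ) = s' := by simp
    have h1 := local_max (bsum (fam P0) (bsum (fam Q0) (bsum Y0 (bsum (gad 0) (blk Em)))))
      (s : ℤ) hsc (univ.map eI) (univ.map eJ) (by
      intro a ha j hj
      rw [Finset.mem_map] at ha hj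
      obtain ⟨b, -, hb⟩ := ha
      obtain ⟨i, -, hi⟩ := hj
      rw [← hb, ← hi]
      simp only [eI, eJ, Function.Embedding.coeFn_mk]
      rw [update_bsum, update_bsum, update_bsum, update_bsum, update_blk]
      exact hEm (symmDiff Em {(b, i)}))
    have h2 := kk_ge_of (bsum (fam P0) (bsum (fam Q0) (bsum Y0 (bsum (gad 0) (blk Em)))))
      (s : ℤ) hsc (univ.map eI) _ h1
    rw [hI, hJ, hcardr] at h2
    simp only [hV]
    linarith
  -- numbers
  have hkz : (2 : ℤ) ≤ k := by exact_mod_cast hk1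
  have htz : (2 : ℤ) ≤ t := by exact_mod_cast ht2
  have htkz : (t : ℤ) ≤ k := by exact_mod_cast htk
  have hrsz : (r : ℤ) ≤ s := by exact_mod_cast hrs
  have hr26 : (26 : ℤ) ≤ r := by exact_mod_cast hr24
  have hs512 : (672 : ℤ) ≤ s := by
    have : 672 ≤ s := by omega
    exact_mod_cast this
  have hmz : (m : ℤ) ≤ 1 := by
    have : m ≤ 1 := by omega
    exact_mod_cast this
  have hc1z : 400 * (k : ℤ) * r * s ≤ c := by exact_mod_cast hc1
  have htr : (r : ℤ) ≤ (t : ℤ) ^ 2 := by exact_mod_cast ht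
  set R : ℤ := (t : ℤ) * (t - 1) * fq (s : ℤ) (2 * (80 : ℕ)) with hR
  have hRbig : 20 * (r : ℤ) * s ≤ R := by
    rw [hR]
    unfold fq
    push_cast
    have a1 : (r : ℤ) ≤ 2 * (t * (t - 1)) := by nlinarith
    have a2 : 40 * (s : ℤ) ≤ 2 * 80 * (s - 2 * 80) := by linarith
    have a3 : (0 : ℤ) ≤ t * (t - 1) := by nlinarith
    have a4 : (t : ℤ) * (t - 1) * (40 * s) ≤ t * (t - 1) * (2 * 80 * (s - 2 * 80)) :=
      mul_le_mul_of_nonneg_left a2 a3
    have a5 : (r : ℤ) * (20 * s) ≤ 2 * (t * (t - 1)) * (20 * s) :=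
      mul_le_mul_of_nonneg_right a1 (by positivity)
    linarith
  set lo : ℤ := 64 * k * s + 12 * s with hlo
  set hi : ℤ := 128 * k * s with hhi
  have hlohi : lo + 4 * t * s ≤ hi := by
    rw [hlo, hhi]
    have : (12 + 4 * (t : ℤ)) * s ≤ 64 * k * s :=
      mul_le_mul_of_nonneg_right (by linarith) hsz
    linarith
  have hks0 : 0 ≤ (k : ℤ) * s := by positivity
  have hrs0 : 0 ≤ (r : ℤ) * s := by positivity
  have hts0 : 0 ≤ 4 * (t : ℤ) * s := by positivity
  -- choice of the bulk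
  have hE : ∃ E, V 0 E ≤ 2 * c - lo - 4 * r * s ∧ 2 * c - hi - R + 4 * r * s ≤ V 0 E := by
    have hU0 : V 0 ∅ ≤ 2 * c - lo - 4 * r * s := by
      refine le_trans hV0 ?_
      rw [hlo]
      have b1 : 2 * (r : ℤ) * s * (256 * k + (6 + 3 * m) + 80 * t) ≤
          2 * r * s * (336 * k + 9) := by
        apply mul_le_mul_of_nonneg_left _ (by positivity)
        linarith
      have b2 : 26 * ((k : ℤ) * s) ≤ r * (k * s) := mul_le_mul_of_nonneg_right hr26 hks0
      have b3 : 2 * ((r : ℤ) * s) ≤ k * (r * s) := mul_le_mul_of_nonneg_right hkz hrs0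
      have b4 : 26 * (s : ℤ) ≤ r * s := mul_le_mul_of_nonneg_right hr26 hsz
      nlinarith
    rcases ivt (V 0) (2 * r * s) (2 * c - lo - 4 * r * s) hstepE hU0
      Em with h | ⟨E, h1, h2⟩
    · exact ⟨_, h, by linarith⟩
    · refine ⟨E, h2, ?_⟩
      linarith [hts0, hlohi, hRbig, hrs0]
  obtain ⟨E, hE1, hE2⟩ := hE
  -- the parity gadget
  have hτ : ∃ τ : ℕ, τ ≤ 2 ∧ ((s : ℤ) % 2 = 0 → 8 ∣ 2 * (c : ℤ) - V τ E) ∧
      ((s : ℤ) % 2 = 1 → 4 ∣ 2 * (c : ℤ) - V τ E) := by
    rcases Int.emod_two_eq_zero_or_one (s : ℤ) with h | h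
    · set α0 := alpha (bsum (fam P0) (bsum (fam Q0) (bsum Y0 (bsum (gad 0) (blk E))))) with hα0
      obtain ⟨τ, hτ2, hτd⟩ := exists_toggle (s : ℤ) (r : ℤ) α0 (c : ℤ) h hres
      refine ⟨τ, hτ2, ?_, fun h' => absurd (h.symm.trans h') (by norm_num)⟩
      intro _
      have hα : alpha (bsum (fam P0) (bsum (fam Q0) (bsum Y0 (bsum (gad τ) (blk E))))) =
          α0 + τ := by
        rw [hα0]
        simp only [alpha_bsum]
        rw [alpha_gad τ hτ2, alpha_gad 0 (by norm_num)]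
        push_cast
        ring
      have h8 := kk_mod_even (bsum (fam P0) (bsum (fam Q0) (bsum Y0 (bsum (gad τ) (blk E)))))
        (s : ℤ) h
      rw [hα, hcardr] at h8
      obtain ⟨x, hx⟩ := hτd
      obtain ⟨y, hy⟩ := h8
      refine ⟨x - y, ?_⟩
      simp only [hV]
      linarith
    · refine ⟨0, by norm_num, fun h' => absurd (h'.symm.trans h) (by norm_num), ?_⟩
      intro _
      have h4 := kk_mod_odd (bsum (fam P0) (bsum (fam Q0) (bsum Y0 (bsum (gad 0) (blk E)))))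
        (s : ℤ) h
      have hce : (2 : ℤ) ∣ c := by
        rcases Int.emod_two_eq_zero_or_one (c : ℤ) with h5 | h5
        · exact Int.dvd_of_emod_eq_zero h5
        · exfalso
          obtain ⟨q, hq⟩ : ∃ q : ℤ, (s : ℤ) = 2 * q + 1 := ⟨(s : ℤ) / 2, by omega⟩
          obtain ⟨p, hp⟩ : ∃ p : ℤ, (c : ℤ) = 2 * p + 1 := ⟨(c : ℤ) / 2, by omega⟩
          obtain ⟨w, hw⟩ := hres
          rw [hq, hp] at hw
          have : (1 : ℤ) = 2 * (2 * w - (2 * p ^ 2 + 2 * p - (2 * p + 1) * ((r : ℤ) - 1) * q)) := by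
            linear_combination hw
          omega
      obtain ⟨p, hp⟩ := hce
      obtain ⟨y, hy⟩ := h4
      refine ⟨p - y, ?_⟩
      simp only [hV]
      linarith
  obtain ⟨τ, hτ2, hτe, hτo⟩ := hτ
  have hVτ := hτ4 E τ hτ2
  rw [abs_le] at hVτ
  -- the medium gadget
  obtain ⟨Y, hYc, hY1, hY2⟩ := hmed lo hi (2 * c - V τ E) hlohi (by linarith [hVτ.2])
    (by linarith [hVτ.1])
  have hYe : (s : ℤ) % 2 = 0 → 8 ∣ kk (s : ℤ) Y := by
    intro h
    have h8 := kk_mod_even Y (s : ℤ) h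
    have ha : alpha Y = 0 := by
      unfold alpha
      apply Finset.sum_eq_zero
      intro i _
      rw [hYc]
      norm_num
    rw [ha] at h8
    simpa using h8
  have hYo : (s : ℤ) % 2 = 1 → 4 ∣ kk (s : ℤ) Y := fun h => kk_mod_odd Y (s : ℤ) h
  -- the fine gadgets
  obtain ⟨ρ, hρ⟩ : ∃ ρ : ℤ, 2 * (c : ℤ) - V τ E - kk (s : ℤ) Y = 2 * ρ ∧
      ((s : ℤ) % 2 = 0 → 4 ∣ ρ) ∧ ((s : ℤ) % 2 = 1 → 2 ∣ ρ) := by
    rcases Int.emod_two_eq_zero_or_one (s : ℤ) with h | h
    · obtain ⟨x, hx⟩ := hτe h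
      obtain ⟨y, hy⟩ := hYe h
      exact ⟨4 * (x - y), by linarith, fun _ => ⟨x - y, rfl⟩,
        fun h' => absurd (h.symm.trans h') (by norm_num)⟩
    · obtain ⟨x, hx⟩ := hτo h
      obtain ⟨y, hy⟩ := hYo h
      exact ⟨2 * (x - y), by linarith, fun h' => absurd (h'.symm.trans h) (by norm_num),
        fun _ => ⟨x - y, rfl⟩⟩
  obtain ⟨hρ0, hρe, hρo⟩ := hρ
  obtain ⟨j, hj3, hj8⟩ := exists_j s ρ hρe hρo
  rw [← hm] at hj8
  obtain ⟨ρ', hρ'⟩ := hj8
  have hjz : (j : ℤ) ≤ 3 := by exact_mod_cast hj3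
  have hj0 : (0 : ℤ) ≤ j := by positivity
  have hm0 : (0 : ℤ) ≤ m := by positivity
  have hD : (j : ℤ) * (2 * ((s : ℤ) - 2 * (m : ℤ) - 2)) ≤ 6 * s := by
    have : (j : ℤ) * (2 * ((s : ℤ) - 2 * (m : ℤ) - 2)) ≤ 3 * (2 * ((s : ℤ) - 2 * (m : ℤ) - 2)) :=
      mul_le_mul_of_nonneg_right hjz (by linarith)
    linarith
  have hD0 : 0 ≤ (j : ℤ) * (2 * ((s : ℤ) - 2 * (m : ℤ) - 2)) :=
    mul_nonneg hj0 (by linarith)
  obtain ⟨P, hPc, hPs⟩ := large_pairs s k hk hks ρ' (by
    rw [hlo] at hY1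
    linarith) (by
    rw [hhi] at hY2
    linarith)
  obtain ⟨Q, hQt, hQf, hQs⟩ := small_pairs s m j hj3
  -- conclusion
  obtain ⟨c', hc'S, hc'⟩ := realize (bsum (fam P) (bsum (fam Q) (bsum Y (bsum (gad τ) (blk E)))))
    hcardr hcards
  have d1 := swap_left (s : ℤ) (fam P) (fam P0) (bsum (fam Q) (bsum Y (bsum (gad τ) (blk E))))
    (fun x => by rw [card_fam, card_fam, hPc]; simp only [hP0]; rw [hX0])
  have cQ : ∀ x, (fam Q x).card = (fam Q0 x).card := by
    rintro ⟨p, b⟩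
    rw [card_fam, card_fam]
    cases b
    · simp only [hQf, hQ0f]
    · simp only [hQt, hQ0t]
  have cY : ∀ x, (Y x).card = (Y0 x).card := fun x => by rw [hYc, hY0c]
  have d2 := swap_right (s : ℤ) (fam P0) (bsum (fam Q) (bsum Y (bsum (gad τ) (blk E))))
    (bsum (fam Q0) (bsum Y (bsum (gad τ) (blk E))))
    (card_congr _ _ _ _ cQ (fun _ => rfl))
  have d2' := swap_left (s : ℤ) (fam Q) (fam Q0) (bsum Y (bsum (gad τ) (blk E))) cQ
  have d3 := swap_right (s : ℤ) (fam P0) (bsum (fam Q0) (bsum Y (bsum (gad τ) (blk E))))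
    (bsum (fam Q0) (bsum Y0 (bsum (gad τ) (blk E))))
    (card_congr _ _ _ _ (fun _ => rfl) (card_congr _ _ _ _ cY (fun _ => rfl)))
  have d3' := swap_right (s : ℤ) (fam Q0) (bsum Y (bsum (gad τ) (blk E)))
    (bsum Y0 (bsum (gad τ) (blk E))) (card_congr _ _ _ _ cY (fun _ => rfl))
  have d3'' := swap_left (s : ℤ) Y Y0 (bsum (gad τ) (blk E)) cY
  have f1 := kk_fam_sub (s : ℤ) P P0 (fun p b => by rw [hPc]; simp only [hP0]; rw [hX0])
  have f2 := kk_fam_sub (s : ℤ) Q Q0 (fun p b => by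
    cases b
    · rw [hQf, hQ0f]
    · rw [hQt, hQ0t])
  have hP0s : ∑ p : Fin 4 × Bool, fq (s : ℤ) ((symmDiff (P0 p true) (P0 p false)).card : ℤ) = 0 := by
    apply Finset.sum_eq_zero
    intro p _
    simp [hP0, fq]
  rw [hPs, hP0s] at f1
  rw [hQs, hQ0s] at f2
  have hVval : V τ E = kk (s : ℤ) (bsum (fam P0) (bsum (fam Q0) (bsum Y0 (bsum (gad τ) (blk E))))) :=
    rfl
  push_cast at f2
  have hfin : (2 * (c' : ℤ)) = 2 * c := by
    rw [hc']
    linarith
  have hcc : c' = c := by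
    have : (c' : ℤ) = c := by linarith
    exact_mod_cast this
  rw [← hcc]
  exact hc'S

end Pool.Agent.H61.NC
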