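import Pool.Agent.H61.NC.Core

/-!
# The elements of `S_4(r,s)` between `1000 r s sqrt(max)` and `(1 - 10^6/min) (rs)^2/8`
-/

set_option autoImplicit false

namespace Pool.Agent.H61.NC

open Finset

private theorem eight_mul {r s : ℕ} (σ : Fin r → Fin s → ℤˣ) :
    (8 * (Pool.Agent.H20.Neg.negCount 4 σ : ℤ)) = (r : ℤ) ^ 2 * s ^ 2 -
      ∑ a, ∑ b, (∑ j, ((σ a j : ℤˣ) : ℤ) * ((σ b j : ℤˣ) : ℤ)) ^ 2 := by
  have h := Pool.Agent.H20.Neg.two_mul_negCount σ
  have h' : (2 * (Pool.Agent.H20.Neg.negCount 4 σ : ℤ)) =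
      ∑ a : Fin r, ∑ b : Fin r, (Pool.Agent.H20.Neg.cost σ a b : ℤ) := by
    exact_mod_cast h
  have h1 : ∀ a b : Fin r, 4 * (Pool.Agent.H20.Neg.cost σ a b : ℤ) =
      (s : ℤ) ^ 2 - (∑ j, ((σ a j : ℤˣ) : ℤ) * ((σ b j : ℤˣ) : ℤ)) ^ 2 := by
    intro a b
    have h2 := Pool.Agent.H20.Neg.two_mul_card_diffSet σ a b
    have hle := Pool.Agent.H20.Neg.card_diffSet_le σ a b
    unfold Pool.Agent.H20.Neg.cost
    push_cast [Nat.cast_sub hle]
    have h3 : ∑ j, ((σ a j : ℤˣ) : ℤ) * ((σ b j : ℤˣ) : ℤ) =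
        s - 2 * ((Pool.Agent.H20.Neg.diffSet σ a b).card : ℤ) := by linarith
    rw [h3]
    ring
  have h4 : (8 * (Pool.Agent.H20.Neg.negCount 4 σ : ℤ)) =
      ∑ a : Fin r, ∑ b : Fin r, 4 * (Pool.Agent.H20.Neg.cost σ a b : ℤ) := by
    simp only [← Finset.mul_sum]
    rw [← h']
    ring
  rw [h4]
  simp only [h1, Finset.sum_sub_distrib, Finset.sum_const, Finset.card_univ, Fintype.card_fin,
    nsmul_eq_mul]
  ring

private theorem sq_sum {r s : ℕ} (f : Fin r → Fin s → ℤ) :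
    ∑ a, ∑ b, (∑ j, f a j * f b j) ^ 2 = ∑ j, ∑ k, (∑ a, f a j * f a k) ^ 2 := by
  have h1 : ∀ a b, (∑ j, f a j * f b j) ^ 2 = ∑ j, ∑ k, f a j * f b j * (f a k * f b k) := by
    intro a b
    rw [sq, Finset.sum_mul_sum]
  have h2 : ∀ j k, (∑ a, f a j * f a k) ^ 2 = ∑ a, ∑ b, f a j * f a k * (f b j * f b k) := by
    intro j k
    rw [sq, Finset.sum_mul_sum]
  simp only [h1, h2]
  calc ∑ a, ∑ b, ∑ j, ∑ k, f a j * f b j * (f a k * f b k)
      = ∑ a, ∑ j, ∑ b, ∑ k, f a j * f b j * (f a k * f b k) := by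
        apply Finset.sum_congr rfl
        intro a _
        rw [Finset.sum_comm]
    _ = ∑ j, ∑ a, ∑ b, ∑ k, f a j * f b j * (f a k * f b k) := by rw [Finset.sum_comm]
    _ = ∑ j, ∑ a, ∑ k, ∑ b, f a j * f b j * (f a k * f b k) := by
        apply Finset.sum_congr rfl
        intro j _
        apply Finset.sum_congr rfl
        intro a _
        rw [Finset.sum_comm]
    _ = ∑ j, ∑ k, ∑ a, ∑ b, f a j * f b j * (f a k * f b k) := by
        apply Finset.sum_congr rfl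
        intro j _
        rw [Finset.sum_comm]
    _ = ∑ j, ∑ k, ∑ a, ∑ b, f a j * f a k * (f b j * f b k) := by
        apply Finset.sum_congr rfl
        intro j _
        apply Finset.sum_congr rfl
        intro k _
        apply Finset.sum_congr rfl
        intro a _
        apply Finset.sum_congr rfl
        intro b _
        ring

/-- `S_4` is symmetric. -/
theorem mem_swap {r s c : ℕ} (h : c ∈ Pool.Agent.H20.Neg.S 4 r s) :
    c ∈ Pool.Agent.H20.Neg.S 4 s r := by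
  obtain ⟨σ, hσ⟩ := h
  refine ⟨fun j a => σ a j, ?_⟩
  have h1 := eight_mul σ
  have h2 := eight_mul (fun j a => σ a j)
  have h3 := sq_sum (fun a j => ((σ a j : ℤˣ) : ℤ))
  rw [hσ] at h1
  have h4 : (8 * (Pool.Agent.H20.Neg.negCount 4 (fun j a => σ a j) : ℤ)) = 8 * (c : ℤ) := by
    rw [h1, h2]
    rw [h3]
    ring
  have h5 : (Pool.Agent.H20.Neg.negCount 4 (fun j a => σ a j) : ℤ) = c := by linarith
  exact_mod_cast h5

private theorem main_le (r s : ℕ) (hrs : r ≤ s) (hr : 2 ≤ r) (c : ℕ)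
    (h1 : 1000 * (r : ℝ) * s * √(s : ℝ) ≤ c)
    (h2 : 8 * (c : ℝ) ≤ (1 - 1000000 / (r : ℝ)) * ((r : ℝ) * s) ^ 2)
    (hres : (4 : ℤ) ∣ (c : ℤ) * (c - ((r : ℤ) - 1) * ((s : ℤ) - 1))) :
    c ∈ Pool.Agent.H20.Neg.S 4 r s := by
  have hr0 : (0 : ℝ) < r := by
    have : 0 < r := by omega
    exact_mod_cast this
  have hs0 : (0 : ℝ) < s := by
    have : 0 < s := by omega
    exact_mod_cast this
  set x : ℝ := √(r : ℝ) with hx
  set z : ℝ := √(s : ℝ) with hz
  have hxx : x ^ 2 = r := Real.sq_sqrt hr0.le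
  have hzz : z ^ 2 = s := Real.sq_sqrt hs0.le
  have hx0 : 0 < x := Real.sqrt_pos.2 hr0
  have hz0 : 0 < z := Real.sqrt_pos.2 hs0
  have hxz : x ≤ z := Real.sqrt_le_sqrt (by exact_mod_cast hrs)
  have hcpos : (0 : ℝ) < c := lt_of_lt_of_le (by positivity) h1
  have hr6 : 1000000 < (r : ℝ) := by
    by_contra hcon
    push Not at hcon
    have h3 : 1 ≤ 1000000 / (r : ℝ) := by
      rw [le_div_iff₀ hr0]
      linarith
    have h4 : (1 - 1000000 / (r : ℝ)) * ((r : ℝ) * s) ^ 2 ≤ 0 :=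
      mul_nonpos_of_nonpos_of_nonneg (by linarith) (by positivity)
    linarith
  have hx1000 : 1000 < x := by
    have h3 : (1000 : ℝ) ^ 2 < x ^ 2 := by
      have h4 : (1000 : ℝ) ^ 2 = 1000000 := by norm_num
      rw [hxx, h4]
      exact hr6
    exact lt_of_pow_lt_pow_left₀ 2 hx0.le h3
  have hsqr : ((Nat.sqrt r : ℕ) : ℝ) ≤ x := Real.nat_sqrt_le_real_sqrt
  have hsqs : ((Nat.sqrt s : ℕ) : ℝ) ≤ z := Real.nat_sqrt_le_real_sqrt
  set k : ℕ := Nat.sqrt s + 1 with hk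
  set t : ℕ := Nat.sqrt r + 1 with ht
  have hkz : (k : ℝ) ≤ z + 1 := by
    rw [hk]
    push_cast
    linarith
  have htx : (t : ℝ) ≤ x + 1 := by
    rw [ht]
    push_cast
    linarith
  have htk : t ≤ k := by
    have := Nat.sqrt_le_sqrt hrs
    omega
  have htkz : (t : ℝ) ≤ k := by exact_mod_cast htk
  have hm1 : s / 2 % 2 ≤ 1 := by omega
  -- remaining rows and columns
  have hrr : t + 24 ≤ r := by
    have h3 : ((t + 24 : ℕ) : ℝ) ≤ r := by
      push_cast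
      rw [← hxx]
      nlinarith
    exact_mod_cast h3
  have hss : 256 * k + 9 + t * 80 + 1 ≤ s := by
    have h3 : ((256 * k + 9 + t * 80 + 1 : ℕ) : ℝ) ≤ s := by
      push_cast
      rw [← hzz]
      nlinarith
    exact_mod_cast h3
  obtain ⟨r', hr'⟩ : ∃ r', r = 16 + (6 + (t + (2 + r'))) := ⟨r - (t + 24), by omega⟩
  obtain ⟨s', hs'⟩ : ∃ s', s = 256 * k + (3 * (1 + (1 + s / 2 % 2)) + (t * 80 + (1 + s'))) :=
    ⟨s - (256 * k + 3 * (1 + (1 + s / 2 % 2)) + t * 80 + 1), by omega⟩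
  refine core r s k t r' s' (s / 2 % 2) c rfl hr' hs' hrs ?_ htk ?_ ?_ ?_ ?_ ?_ hres
  · rw [hk]
    exact Nat.lt_succ_sqrt' s
  · rw [ht]
    exact (Nat.lt_succ_sqrt' r).le
  · rw [ht]
    have : 0 < Nat.sqrt r := Nat.sqrt_pos.2 (by omega)
    omega
  · have h3 : ((32 * k : ℕ) : ℝ) ≤ s := by
      push_cast
      rw [← hzz]
      nlinarith
    exact_mod_cast h3
  · have h3 : ((400 * k * r * s : ℕ) : ℝ) ≤ c := by
      refine le_trans ?_ h1
      push_cast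
      have h4 : 400 * (k : ℝ) ≤ 1000 * z := by linarith
      have h5 : 400 * (k : ℝ) * (r * s) ≤ 1000 * z * (r * s) :=
        mul_le_mul_of_nonneg_right h4 (by positivity)
      linarith
    exact_mod_cast h3
  · have e1 : (r : ℝ) = 24 + t + r' := by
      have : ((r : ℕ) : ℝ) = ((16 + (6 + (t + (2 + r'))) : ℕ) : ℝ) := by rw [← hr']
      rw [this]
      push_cast
      ring
    have e2 : (s : ℝ) ≤ 256 * k + 9 + 80 * t + 1 + s' := by
      have : s ≤ 256 * k + 9 + 80 * t + 1 + s' := by omega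
      exact_mod_cast this
    have e2' : (s' : ℝ) ≤ s := by
      have : s' ≤ s := by omega
      exact_mod_cast this
    have r'0 : (0 : ℝ) ≤ r' := by positivity
    have e3 : (s : ℝ) - s' ≤ 337 * z := by linarith
    have e4 : ((s : ℝ) - s') ^ 2 ≤ 113569 * s := by
      have h3 : ((s : ℝ) - s') ^ 2 ≤ (337 * z) ^ 2 := pow_le_pow_left₀ (by linarith) e3 2
      rw [← hzz] at h3 ⊢
      linarith
    have e5 : (r : ℝ) - r' ≤ x + 25 := by linarith
    have e6 : ((r : ℝ) - r') ^ 2 ≤ 2 * r := by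
      have t0 : (0 : ℝ) ≤ t := by positivity
      have h3 : ((r : ℝ) - r') ^ 2 ≤ (x + 25) ^ 2 := pow_le_pow_left₀ (by linarith) e5 2
      have h4 : (x + 25) ^ 2 ≤ 2 * x ^ 2 := by nlinarith
      rw [hxx] at h4
      linarith
    have t0 : (0 : ℝ) ≤ t := by positivity
    have e7 : (r' : ℝ) * (r - 1) ≤ r * r :=
      mul_le_mul (by linarith) (by linarith) (by linarith) hr0.le
    have e8 : (r' : ℝ) * (r - 1) * ((s - s') ^ 2 + 2 * s) ≤ r * r * (113571 * s) :=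
      mul_le_mul e7 (by linarith) (by positivity) (by positivity)
    have hrsz : (r : ℝ) ≤ s := by exact_mod_cast hrs
    have e9 : (r : ℝ) * r * (113571 * s) ≤ r * s * (113571 * s) :=
      mul_le_mul_of_nonneg_right (mul_le_mul_of_nonneg_left hrsz hr0.le) (by positivity)
    have e10 : ((r : ℝ) - r') ^ 2 * s ^ 2 ≤ 2 * r * s ^ 2 :=
      mul_le_mul_of_nonneg_right e6 (by positivity)
    have w4 : (1 - 1000000 / (r : ℝ)) * ((r : ℝ) * s) ^ 2 =
        (r : ℝ) ^ 2 * s ^ 2 - 1000000 * (r * s ^ 2) := by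
      field_simp
    have w5 : 0 ≤ (r : ℝ) * s ^ 2 := by positivity
    have w6 : 8 * (c : ℝ) ≤ (r : ℝ) ^ 2 * s ^ 2 - r * s ^ 2 -
        2 * (r' * ((r : ℝ) - 1) * ((s - s') ^ 2 + 2 * s)) - ((r : ℝ) - r') ^ 2 * s ^ 2 := by
      rw [w4] at h2
      nlinarith
    exact_mod_cast w6

/-- The filling theorem. -/
theorem filling (r s : ℕ) (hr : 2 ≤ r) (hs : 2 ≤ s) (c : ℕ)
    (h1 : 1000 * (r : ℝ) * s * √((max r s : ℕ) : ℝ) ≤ c)
    (h2 : 8 * (c : ℝ) ≤ (1 - 1000000 / ((min r s : ℕ) : ℝ)) * ((r : ℝ) * s) ^ 2) :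
    c ∈ Pool.Agent.H20.Neg.S 4 r s ↔
      (4 : ℤ) ∣ (c : ℤ) * (c - ((r : ℤ) - 1) * ((s : ℤ) - 1)) := by
  constructor
  · exact residue
  · intro hres
    rcases le_total r s with h | h
    · rw [max_eq_right h] at h1
      rw [min_eq_left h] at h2
      exact main_le r s h hr c h1 h2 hres
    · rw [max_eq_left h] at h1
      rw [min_eq_right h] at h2
      apply mem_swap
      refine main_le s r h hs c (by linarith) ?_ ?_
      · have e : ((s : ℝ) * r) ^ 2 = ((r : ℝ) * s) ^ 2 := by ring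
        rw [e]
        exact h2
      · have e : ((s : ℤ) - 1) * ((r : ℤ) - 1) = ((r : ℤ) - 1) * ((s : ℤ) - 1) := by ring
        rw [e]
        exact hres

end Pool.Agent.H61.NC
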