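import Pool.Agent.H61.NC.Mod

/-!
# The fine gadgets: pairs of rows
-/

set_option autoImplicit false

namespace Pool.Agent.H61.NC

open Finset

/-- pairs of rows, each pair in its own block of columns -/
def fam {π δ : Type*} (P : π → Bool → Finset δ) : π × Bool → Finset (π × δ) :=
  fun x => (P x.1 x.2).map (Function.Embedding.sectR x.1 δ)

theorem card_fam {π δ : Type*} (P : π → Bool → Finset δ) (x : π × Bool) :
    (fam P x).card = (P x.1 x.2).card := by
  simp [fam]

private theorem card_fam_sd {π δ : Type*} [DecidableEq π] [DecidableEq δ] (P : π → Bool → Finset δ)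
    (p q : π) (b c : Bool) :
    (symmDiff (fam P (p, b)) (fam P (q, c))).card =
      if p = q then (symmDiff (P p b) (P p c)).card else (P p b).card + (P q c).card := by
  by_cases h : p = q
  · rw [if_pos h, ← h]
    simp only [fam]
    rw [map_sd, Finset.card_map]
  · rw [if_neg h]
    have hd : Disjoint (fam P (p, b)) (fam P (q, c)) := by
      rw [Finset.disjoint_left]
      intro x hx hy
      simp only [fam, Finset.mem_map] at hx hy
      obtain ⟨u, -, hu⟩ := hx
      obtain ⟨v, -, hv⟩ := hy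
      rw [← hv] at hu
      simp at hu
      exact h hu.1
    rw [hd.symmDiff_eq_sup, Finset.sup_eq_union, Finset.card_union_of_disjoint hd,
      card_fam, card_fam]

theorem kk_fam_sub {π δ : Type*} [Fintype π] [DecidableEq π] [DecidableEq δ] (s : ℤ)
    (P P' : π → Bool → Finset δ) (h : ∀ p b, (P p b).card = (P' p b).card) :
    kk s (fam P) - kk s (fam P') =
      2 * (∑ p, fq s ((symmDiff (P p true) (P p false)).card : ℤ) -
        ∑ p, fq s ((symmDiff (P' p true) (P' p false)).card : ℤ)) := by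
  have h1 : ∀ (p q : π) (b c : Bool), fq s ((symmDiff (fam P (p, b)) (fam P (q, c))).card : ℤ) -
      fq s ((symmDiff (fam P' (p, b)) (fam P' (q, c))).card : ℤ) =
      if p = q then fq s ((symmDiff (P p b) (P p c)).card : ℤ) -
        fq s ((symmDiff (P' p b) (P' p c)).card : ℤ) else 0 := by
    intro p q b c
    rw [card_fam_sd, card_fam_sd]
    by_cases hp : p = q
    · rw [if_pos hp, if_pos hp, if_pos hp]
    · rw [if_neg hp, if_neg hp, if_neg hp, h, h, sub_self]
  unfold kk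
  rw [← Finset.sum_sub_distrib]
  simp only [← Finset.sum_sub_distrib, Fintype.sum_prod_type, h1]
  have h2 : ∀ (p : π) (b : Bool), ∑ q : π, ∑ c : Bool, (if p = q then
      fq s ((symmDiff (P p b) (P p c)).card : ℤ) -
        fq s ((symmDiff (P' p b) (P' p c)).card : ℤ) else 0) =
      ∑ c : Bool, (fq s ((symmDiff (P p b) (P p c)).card : ℤ) -
        fq s ((symmDiff (P' p b) (P' p c)).card : ℤ)) := by
    intro p b
    rw [Finset.sum_comm]
    apply Finset.sum_congr rfl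
    intro c _
    rw [Finset.sum_ite_eq]
    simp
  simp only [h2]
  rw [Finset.mul_sum]
  apply Finset.sum_congr rfl
  intro p _
  simp only [Fintype.sum_bool, symmDiff_self, Finset.bot_eq_empty, Finset.card_empty]
  rw [symmDiff_comm (P p false) (P p true), symmDiff_comm (P' p false) (P' p true)]
  ring

theorem pair_sets (u v i : ℕ) (hu : i ≤ u) (hv : i ≤ v) :
    ∃ P : Bool → Finset (Fin (u + v)), (P true).card = u ∧ (P false).card = v ∧
      (symmDiff (P true) (P false)).card = u + v - 2 * i := by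
  classical
  obtain ⟨X, -, hX⟩ := Finset.exists_subset_card_eq (s := (univ : Finset (Fin (u + v)))) (n := u)
    (by simp)
  obtain ⟨I, hI, hIc⟩ := Finset.exists_subset_card_eq (s := X) (n := i) (by omega)
  have hXc : Xᶜ.card = v := by
    rw [Finset.card_compl, Fintype.card_fin, hX]
    omega
  obtain ⟨J, hJ, hJc⟩ := Finset.exists_subset_card_eq (s := Xᶜ) (n := v - i) (by omega)
  have hdisj : Disjoint X J := by
    rw [Finset.disjoint_left]
    intro x hx hxJ
    have := hJ hxJ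
    rw [Finset.mem_compl] at this
    exact this hx
  have hIJ : Disjoint I J := Finset.disjoint_of_subset_left hI hdisj
  have hcard : (I ∪ J).card = v := by
    rw [Finset.card_union_of_disjoint hIJ]
    omega
  have hint : X ∩ (I ∪ J) = I := by
    rw [Finset.inter_union_distrib_left, Finset.disjoint_iff_inter_eq_empty.1 hdisj,
      Finset.union_empty]
    exact Finset.inter_eq_right.2 hI
  refine ⟨fun b => if b then X else I ∪ J, by simpa using hX, by simpa using hcard, ?_⟩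
  have h := card_sd X (I ∪ J)
  rw [hint, hX, hcard, hIc] at h
  simp only [if_true, Bool.false_eq_true, if_false]
  omega

/-- The numbers represented by the eight large pairs. -/
private theorem fine_num (s k : ℕ) (hk : s < k ^ 2) (hs : 32 * k ≤ s) (ρ : ℤ)
    (h1 : 4 * (k : ℤ) * s ≤ ρ) (h2 : ρ ≤ 8 * k * s) :
    ∃ (a : ℕ) (x : Fin 4 → ℕ), a ≤ 8 * k ∧ (∀ i, x i ≤ a) ∧
      ρ = 2 * a * s - 4 * a ^ 2 - ∑ i, ((x i : ℕ) : ℤ) ^ 2 := by
  classical
  have hk0 : 0 < k := by
    rcases Nat.eq_zero_or_pos k with h | h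
    · rw [h] at hk
      simp at hk
    · exact h
  have hkz : (1 : ℤ) ≤ k := by exact_mod_cast hk0
  have hkk : (s : ℤ) < (k : ℤ) ^ 2 := by exact_mod_cast hk
  have hsz : 32 * (k : ℤ) ≤ s := by exact_mod_cast hs
  have hex : ∃ a : ℕ, 2 * k ≤ a ∧ ρ ≤ 2 * a * s - 4 * (a : ℤ) ^ 2 := by
    refine ⟨8 * k, by omega, ?_⟩
    push_cast
    nlinarith
  let a := Nat.find hex
  have ha := Nat.find_spec hex
  have ha8 : a ≤ 8 * k := by
    apply Nat.find_min' hex
    refine ⟨by omega, ?_⟩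
    push_cast
    nlinarith
  have ha2 : 2 * k < a := by
    rcases Nat.lt_or_ge (2 * k) a with h | h
    · exact h
    · exfalso
      have hae : a = 2 * k := le_antisymm h ha.1
      have h3 : ρ ≤ 2 * (a : ℤ) * s - 4 * (a : ℤ) ^ 2 := ha.2
      rw [hae] at h3
      push_cast at h3
      nlinarith
  have hmin := Nat.find_min hex (m := a - 1) (by omega)
  have hlt : 2 * ((a : ℤ) - 1) * s - 4 * ((a : ℤ) - 1) ^ 2 < ρ := by
    by_contra hcon
    push Not at hcon
    apply hmin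
    refine ⟨by omega, ?_⟩
    have hc : ((a - 1 : ℕ) : ℤ) = (a : ℤ) - 1 := by
      push_cast [Nat.cast_sub (show 1 ≤ a by omega)]
      ring
    rw [hc]
    exact hcon
  have hle : ρ ≤ 2 * (a : ℤ) * s - 4 * (a : ℤ) ^ 2 := ha.2
  obtain ⟨Y, hY⟩ : ∃ Y : ℕ, (Y : ℤ) = 2 * (a : ℤ) * s - 4 * (a : ℤ) ^ 2 - ρ :=
    ⟨(2 * (a : ℤ) * s - 4 * (a : ℤ) ^ 2 - ρ).toNat, by
      rw [Int.toNat_of_nonneg]
      linarith⟩
  have haz : 2 * (k : ℤ) + 1 ≤ a := by exact_mod_cast ha2
  have hYa : (Y : ℤ) ≤ (a : ℤ) ^ 2 := by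
    rw [hY]
    nlinarith
  obtain ⟨x0, x1, x2, x3, hx⟩ := Nat.sum_four_squares Y
  refine ⟨a, ![x0, x1, x2, x3], ha8, ?_, ?_⟩
  · have hxz : (x0 : ℤ) ^ 2 + (x1 : ℤ) ^ 2 + (x2 : ℤ) ^ 2 + (x3 : ℤ) ^ 2 = Y := by
      exact_mod_cast hx
    have hgen : ∀ y : ℕ, (y : ℤ) ^ 2 ≤ Y → y ≤ a := by
      intro y hy
      have h3 : (y : ℤ) ^ 2 ≤ (a : ℤ) ^ 2 := le_trans hy hYa
      have h4 : y ^ 2 ≤ a ^ 2 := by exact_mod_cast h3
      exact (Nat.pow_le_pow_iff_left (by norm_num)).1 h4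
    intro i
    fin_cases i
    · exact hgen x0 (by nlinarith [sq_nonneg (x1 : ℤ), sq_nonneg (x2 : ℤ), sq_nonneg (x3 : ℤ)])
    · exact hgen x1 (by nlinarith [sq_nonneg (x0 : ℤ), sq_nonneg (x2 : ℤ), sq_nonneg (x3 : ℤ)])
    · exact hgen x2 (by nlinarith [sq_nonneg (x0 : ℤ), sq_nonneg (x1 : ℤ), sq_nonneg (x3 : ℤ)])
    · exact hgen x3 (by nlinarith [sq_nonneg (x0 : ℤ), sq_nonneg (x1 : ℤ), sq_nonneg (x2 : ℤ)])
  · have hxz : (x0 : ℤ) ^ 2 + (x1 : ℤ) ^ 2 + (x2 : ℤ) ^ 2 + (x3 : ℤ) ^ 2 = Y := by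
      exact_mod_cast hx
    rw [Fin.sum_univ_four]
    simp only [Matrix.cons_val_zero, Matrix.cons_val_one, Matrix.cons_val]
    linarith

/-- the eight large pairs -/
theorem large_pairs (s k : ℕ) (hk : s < k ^ 2) (hs : 32 * k ≤ s) (ρ : ℤ)
    (h1 : 4 * (k : ℤ) * s ≤ ρ) (h2 : ρ ≤ 8 * k * s) :
    ∃ P : Fin 4 × Bool → Bool → Finset (Fin (16 * k + 16 * k)),
      (∀ p b, (P p b).card = 16 * k) ∧
      ∑ p, fq (s : ℤ) ((symmDiff (P p true) (P p false)).card : ℤ) = 8 * ρ := by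
  obtain ⟨a, x, ha, hx, hρ⟩ := fine_num s k hk hs ρ h1 h2
  have hex : ∀ p : Fin 4 × Bool, ∃ Q : Bool → Finset (Fin (16 * k + 16 * k)),
      (Q true).card = 16 * k ∧ (Q false).card = 16 * k ∧
      (symmDiff (Q true) (Q false)).card = 2 * (if p.2 then a + x p.1 else a - x p.1) := by
    intro p
    have hxa := hx p.1
    have hg : (if p.2 then a + x p.1 else a - x p.1) ≤ 16 * k := by
      split_ifs <;> omega
    obtain ⟨Q, q1, q2, q3⟩ := pair_sets (16 * k) (16 * k)
      (16 * k - (if p.2 then a + x p.1 else a - x p.1)) (by omega) (by omega)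
    refine ⟨Q, q1, q2, ?_⟩
    rw [q3]
    omega
  choose P hP using hex
  refine ⟨P, ?_, ?_⟩
  · intro p b
    cases b
    · exact (hP p).2.1
    · exact (hP p).1
  · have e1 : ∀ p : Fin 4 × Bool, fq (s : ℤ) ((symmDiff (P p true) (P p false)).card : ℤ) =
        fq (s : ℤ) ((2 * (if p.2 then a + x p.1 else a - x p.1) : ℕ) : ℤ) := by
      intro p
      rw [(hP p).2.2]
    rw [Finset.sum_congr rfl (fun p _ => e1 p), Fintype.sum_prod_type]
    have e2 : ∀ i : Fin 4, ∑ b : Bool, fq (s : ℤ) ((2 * (if (i, b).2 then a + x (i, b).1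
        else a - x (i, b).1) : ℕ) : ℤ) = 4 * a * s - 8 * (a : ℤ) ^ 2 - 8 * ((x i : ℕ) : ℤ) ^ 2 := by
      intro i
      have hxa := hx i
      rw [Fintype.sum_bool]
      simp only [if_true, Bool.false_eq_true, if_false]
      unfold fq
      push_cast [Nat.cast_sub hxa]
      ring
    rw [Finset.sum_congr rfl (fun i _ => e2 i), Finset.sum_sub_distrib, Finset.sum_const,
      Finset.card_univ, Fintype.card_fin, ← Finset.mul_sum, hρ]
    simp only [nsmul_eq_mul]
    push_cast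
    ring

/-- the three small pairs -/
theorem small_pairs (s m j : ℕ) (hj : j ≤ 3) :
    ∃ Q : Fin 3 → Bool → Finset (Fin (1 + (1 + m))),
      (∀ p, (Q p true).card = 1) ∧ (∀ p, (Q p false).card = 1 + m) ∧
      ∑ p, fq (s : ℤ) ((symmDiff (Q p true) (Q p false)).card : ℤ) =
        3 * fq (s : ℤ) m + j * (2 * ((s : ℤ) - 2 * m - 2)) := by
  have hex : ∀ p : Fin 3, ∃ Q : Bool → Finset (Fin (1 + (1 + m))),
      (Q true).card = 1 ∧ (Q false).card = 1 + m ∧
      (symmDiff (Q true) (Q false)).card = m + (if (p : ℕ) < j then 2 else 0) := by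
    intro p
    by_cases hp : (p : ℕ) < j
    · obtain ⟨Q, q1, q2, q3⟩ := pair_sets 1 (1 + m) 0 (by omega) (by omega)
      refine ⟨Q, q1, q2, ?_⟩
      rw [q3, if_pos hp]
      omega
    · obtain ⟨Q, q1, q2, q3⟩ := pair_sets 1 (1 + m) 1 (by omega) (by omega)
      refine ⟨Q, q1, q2, ?_⟩
      rw [q3, if_neg hp]
      omega
  choose Q hQ using hex
  refine ⟨Q, fun p => (hQ p).1, fun p => (hQ p).2.1, ?_⟩
  have e1 : ∀ p : Fin 3, fq (s : ℤ) ((symmDiff (Q p true) (Q p false)).card : ℤ) =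
      fq (s : ℤ) m + (if (p : ℕ) < j then 2 * ((s : ℤ) - 2 * m - 2) else 0) := by
    intro p
    rw [(hQ p).2.2]
    split_ifs
    · unfold fq
      push_cast
      ring
    · simp
  rw [Finset.sum_congr rfl (fun p _ => e1 p), Fin.sum_univ_three]
  have hj' : j = 0 ∨ j = 1 ∨ j = 2 ∨ j = 3 := by omega
  rcases hj' with h | h | h | h <;> rw [h] <;> simp <;> ring

/-- choice of the number of switched small pairs -/
theorem exists_j (s : ℕ) (ρ : ℤ)
    (h0 : (s : ℤ) % 2 = 0 → 4 ∣ ρ) (h1 : (s : ℤ) % 2 = 1 → 2 ∣ ρ) :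
    ∃ j : ℕ, j ≤ 3 ∧ 8 ∣ ρ - j * (2 * ((s : ℤ) - 2 * ((s / 2 % 2 : ℕ) : ℤ) - 2)) := by
  rcases Int.emod_two_eq_zero_or_one (s : ℤ) with h | h
  · have h4 := h0 h
    set m : ℕ := s / 2 % 2 with hm
    have h5 : (2 * ((s : ℤ) - 2 * (m : ℤ) - 2)) % 8 = 4 := by omega
    have h6 : ρ % 8 = 0 ∨ ρ % 8 = 4 := by omega
    rcases h6 with h6 | h6
    · refine ⟨0, by norm_num, ?_⟩
      push_cast
      omega
    · refine ⟨1, by norm_num, ?_⟩
      push_cast
      omega
  · have h4 := h1 h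
    set m : ℕ := s / 2 % 2 with hm
    have h5 : (2 * ((s : ℤ) - 2 * (m : ℤ) - 2)) % 8 = 2 ∨ (2 * ((s : ℤ) - 2 * (m : ℤ) - 2)) % 8 = 6 := by
      omega
    have h6 : ρ % 8 = 0 ∨ ρ % 8 = 2 ∨ ρ % 8 = 4 ∨ ρ % 8 = 6 := by omega
    set D := 2 * ((s : ℤ) - 2 * (m : ℤ) - 2) with hD
    rcases h6 with h6 | h6 | h6 | h6
    · exact ⟨0, by norm_num, by push_cast; omega⟩
    · rcases h5 with h5 | h5
      · exact ⟨1, by norm_num, by push_cast; omega⟩
      · exact ⟨3, by norm_num, by push_cast; omega⟩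
    · exact ⟨2, by norm_num, by push_cast; omega⟩
    · rcases h5 with h5 | h5
      · exact ⟨3, by norm_num, by push_cast; omega⟩
      · exact ⟨1, by norm_num, by push_cast; omega⟩

end Pool.Agent.H61.NC
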