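import Pool.Agent.H61.NC.Basic

/-!
# Residues of the number of negative 4-circles
-/

set_option autoImplicit false

namespace Pool.Agent.H61.NC

open Finset

/-- number of rows with an odd number of negative columns -/
def alpha {ι γ : Type*} [Fintype ι] (A : ι → Finset γ) : ℤ := ∑ a, (((A a).card % 2 : ℕ) : ℤ)

theorem alpha_bsum {ι ι' γ γ' : Type*} [Fintype ι] [Fintype ι'] (A : ι → Finset γ)
    (B : ι' → Finset γ') : alpha (bsum A B) = alpha A + alpha B := by
  unfold alpha
  rw [Fintype.sum_sum_type]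
  simp only [card_bsum_inl, card_bsum_inr]

theorem sum_sym_dvd {ι : Type*} (T : Finset ι) (g : ι → ι → ℤ) (d : ℤ) (hs : ∀ a b, g a b = g b a)
    (h0 : ∀ a, g a a = 0) (hd : ∀ a b, d ∣ g a b) : 2 * d ∣ ∑ a ∈ T, ∑ b ∈ T, g a b := by
  classical
  induction T using Finset.induction_on with
  | empty => simp
  | insert x T hx ih =>
    rw [Finset.sum_insert hx, Finset.sum_insert hx, h0, zero_add]
    have h1 : ∑ a ∈ T, ∑ b ∈ insert x T, g a b = ∑ a ∈ T, g x a + ∑ a ∈ T, ∑ b ∈ T, g a b := by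
      rw [← Finset.sum_add_distrib]
      apply Finset.sum_congr rfl
      intro a _
      rw [Finset.sum_insert hx, hs a x]
    rw [h1, ← add_assoc, ← two_mul]
    apply dvd_add
    · exact mul_dvd_mul_left 2 (Finset.dvd_sum (fun a _ => hd x a))
    · exact ih

theorem card_sd {γ : Type*} [DecidableEq γ] (A B : Finset γ) :
    (symmDiff A B).card + 2 * (A ∩ B).card = A.card + B.card := by
  have h1 := Finset.card_sdiff_add_card_inter A B
  have h2 := Finset.card_sdiff_add_card_inter B A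
  have h3 : (symmDiff A B).card = (A \ B).card + (B \ A).card := by
    rw [symmDiff_def, Finset.sup_eq_union, Finset.card_union_of_disjoint]
    exact disjoint_sdiff_sdiff
  rw [Finset.inter_comm B A] at h2
  omega

theorem kk_mod_odd {ι γ : Type*} [Fintype ι] [DecidableEq γ] (A : ι → Finset γ) (s : ℤ)
    (hs : s % 2 = 1) : 4 ∣ kk s A := by
  have := sum_sym_dvd univ (fun a b => fq s ((symmDiff (A a) (A b)).card : ℤ)) 2
    (fun a b => by rw [symmDiff_comm]) (fun a => by simp [fq]) ?_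
  · norm_num at this
    exact this
  · intro a b
    set m : ℤ := ((symmDiff (A a) (A b)).card : ℤ)
    unfold fq
    rcases Int.emod_two_eq_zero_or_one m with h | h
    · exact Dvd.dvd.mul_right (Int.dvd_of_emod_eq_zero h) _
    · exact Dvd.dvd.mul_left (by omega) _

theorem kk_mod_even {ι γ : Type*} [Fintype ι] [DecidableEq γ] (A : ι → Finset γ) (s : ℤ)
    (hs : s % 2 = 0) :
    8 ∣ kk s A - 2 * ((s - 1) * alpha A * (Fintype.card ι - alpha A)) := by
  set x : ι → ℤ := fun a => (((A a).card % 2 : ℕ) : ℤ) with hx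
  have hx01 : ∀ a, x a = 0 ∨ x a = 1 := by
    intro a
    simp only [hx]
    rcases Nat.mod_two_eq_zero_or_one (A a).card with h | h <;> rw [h] <;> simp
  have h := sum_sym_dvd univ (fun a b => fq s ((symmDiff (A a) (A b)).card : ℤ) -
      (s - 1) * (x a + x b - 2 * x a * x b)) 4
    (fun a b => by rw [symmDiff_comm]; ring) (fun a => by
      rcases hx01 a with h | h <;> rw [h] <;> simp [fq]) ?_
  · have e : ∑ a, ∑ b, (fq s ((symmDiff (A a) (A b)).card : ℤ) -
        (s - 1) * (x a + x b - 2 * x a * x b)) =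
        kk s A - 2 * ((s - 1) * alpha A * (Fintype.card ι - alpha A)) := by
      have h2 : ∑ a, ∑ b, (s - 1) * (x a + x b - 2 * x a * x b) =
          2 * ((s - 1) * alpha A * (Fintype.card ι - alpha A)) := by
        simp only [← Finset.mul_sum, Finset.sum_sub_distrib, Finset.sum_add_distrib,
          Finset.sum_const, Finset.card_univ, nsmul_eq_mul, mul_assoc]
        have h3 : ∑ a, x a * ∑ b, x b = alpha A * alpha A := by
          rw [← Finset.sum_mul]
          rfl
        rw [h3]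
        have h4 : ∑ a, x a = alpha A := rfl
        rw [h4]
        ring
      rw [← h2]
      unfold kk
      rw [← Finset.sum_sub_distrib]
      apply Finset.sum_congr rfl
      intro a _
      rw [← Finset.sum_sub_distrib]
    rw [← e]
    have h8 : (2 * 4 : ℤ) = 8 := by norm_num
    rw [h8] at h
    exact h
  · intro a b
    have hc := card_sd (A a) (A b)
    set m : ℤ := ((symmDiff (A a) (A b)).card : ℤ) with hm
    have hpar : ∃ t : ℤ, m = x a + x b + 2 * t := by
      refine ⟨((A a).card / 2 : ℕ) + ((A b).card / 2 : ℕ) - ((A a ∩ A b).card : ℤ), ?_⟩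
      have h1 := Nat.div_add_mod (A a).card 2
      have h2 := Nat.div_add_mod (A b).card 2
      simp only [hx, hm]
      have h1' : (2 * ((A a).card / 2 : ℕ) + ((A a).card % 2 : ℕ) : ℤ) = (A a).card := by
        exact_mod_cast h1
      have h2' : (2 * ((A b).card / 2 : ℕ) + ((A b).card % 2 : ℕ) : ℤ) = (A b).card := by
        exact_mod_cast h2
      have hc' : ((symmDiff (A a) (A b)).card : ℤ) + 2 * ((A a ∩ A b).card : ℤ) =
          (A a).card + (A b).card := by exact_mod_cast hc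
      linarith
    obtain ⟨t, ht⟩ := hpar
    obtain ⟨q, hq⟩ : ∃ q : ℤ, s = 2 * q := ⟨s / 2, by omega⟩
    unfold fq
    rcases hx01 a with h1 | h1 <;> rcases hx01 b with h2 | h2 <;> rw [h1, h2] at ht ⊢ <;>
      rw [ht, hq]
    · exact ⟨t * (q - t), by ring⟩
    · exact ⟨t * (q - t - 1), by ring⟩
    · exact ⟨t * (q - t - 1), by ring⟩
    · exact ⟨(t + 1) * (q - t - 1), by ring⟩

private theorem dec1 : ∀ s r α c : ZMod 4, (s = 0 ∨ s = 2) → c = (s - 1) * α * (r - α) →
    c * (c - (r - 1) * (s - 1)) = 0 := by decide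

private theorem dec2 : ∀ s r α c : ZMod 4, (s = 0 ∨ s = 2) → c * (c - (r - 1) * (s - 1)) = 0 →
    c = (s - 1) * α * (r - α) ∨ c = (s - 1) * (α + 1) * (r - (α + 1)) ∨
      c = (s - 1) * (α + 2) * (r - (α + 2)) := by decide

private theorem zmod_even (s : ℤ) (hs : s % 2 = 0) : ((s : ZMod 4) = 0 ∨ (s : ZMod 4) = 2) := by
  have h : s % 4 = 0 ∨ s % 4 = 2 := by omega
  rcases h with h | h
  · left
    rw [ZMod.intCast_zmod_eq_zero_iff_dvd]
    exact Int.dvd_of_emod_eq_zero h
  · right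
    have : ((s - 2 : ℤ) : ZMod 4) = 0 := by
      rw [ZMod.intCast_zmod_eq_zero_iff_dvd]
      omega
    push_cast at this
    exact sub_eq_zero.1 this

/-- choice of the parity gadget -/
theorem exists_toggle (s r α c : ℤ) (hs : s % 2 = 0) (hc : 4 ∣ c * (c - (r - 1) * (s - 1))) :
    ∃ τ : ℕ, τ ≤ 2 ∧ 4 ∣ c - (s - 1) * (α + τ) * (r - (α + τ)) := by
  have h1 : ((c * (c - (r - 1) * (s - 1)) : ℤ) : ZMod 4) = 0 :=
    (ZMod.intCast_zmod_eq_zero_iff_dvd _ 4).2 hc
  push_cast at h1
  rcases dec2 s r α c (zmod_even s hs) h1 with h | h | h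
  · refine ⟨0, by norm_num, ?_⟩
    apply (ZMod.intCast_zmod_eq_zero_iff_dvd _ 4).1
    push_cast
    rw [h]
    ring
  · refine ⟨1, by norm_num, ?_⟩
    apply (ZMod.intCast_zmod_eq_zero_iff_dvd _ 4).1
    push_cast
    rw [h]
    ring
  · refine ⟨2, by norm_num, ?_⟩
    apply (ZMod.intCast_zmod_eq_zero_iff_dvd _ 4).1
    push_cast
    rw [h]
    ring

/-- The residue condition for the elements of `S_4(r,s)`. -/
theorem residue {r s : ℕ} {c : ℕ} (hc : c ∈ Pool.Agent.H20.Neg.S 4 r s) :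
    (4 : ℤ) ∣ (c : ℤ) * (c - ((r : ℤ) - 1) * ((s : ℤ) - 1)) := by
  obtain ⟨σ, hσ⟩ := hc
  have h1 := two_mul_negCount_eq σ
  rw [hσ] at h1
  set A := (fun a : Fin r => (univ : Finset (Fin s)).filter (fun j => σ a j = -1)) with hA
  rcases Int.emod_two_eq_zero_or_one (s : ℤ) with hs | hs
  · have h2 := kk_mod_even A (s : ℤ) hs
    rw [← h1, Fintype.card_fin] at h2
    have h3 : 4 ∣ (c : ℤ) - ((s : ℤ) - 1) * alpha A * ((r : ℤ) - alpha A) := by
      obtain ⟨q, hq⟩ := h2
      exact ⟨q, by linarith⟩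
    have h4 : (((c : ℤ) - ((s : ℤ) - 1) * alpha A * ((r : ℤ) - alpha A) : ℤ) : ZMod 4) = 0 :=
      (ZMod.intCast_zmod_eq_zero_iff_dvd _ 4).2 h3
    push_cast at h4
    have h5 := dec1 ((s : ℤ) : ZMod 4) ((r : ℤ) : ZMod 4) ((alpha A : ℤ) : ZMod 4)
      ((c : ℤ) : ZMod 4) (zmod_even _ hs) (by push_cast; linear_combination h4)
    apply (ZMod.intCast_zmod_eq_zero_iff_dvd _ 4).1
    push_cast
    push_cast at h5
    exact h5
  · have h2 := kk_mod_odd A (s : ℤ) hs
    rw [← h1] at h2
    have h3 : (2 : ℤ) ∣ c := by omega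
    have h4 : (2 : ℤ) ∣ (c : ℤ) - ((r : ℤ) - 1) * ((s : ℤ) - 1) := by
      apply dvd_sub h3
      apply Dvd.dvd.mul_left
      omega
    have h5 := mul_dvd_mul h3 h4
    norm_num at h5
    exact h5

end Pool.Agent.H61.NC
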